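import Pool.Agent.P.MP_e2f256_co.Tash

namespace Pool.Agent.P.MP_e2f256_co

open Finset Function

namespace Tash

variable {V E C : Type} [DecidableEq V] [DecidableEq E] [DecidableEq C]
  [Fintype C] (s t : E → V)

def Proper (F : Finset E) (c : E → C) : Prop :=
  ∀ e ∈ F, ∀ f ∈ F, ∀ v, (s e = v ∨ t e = v) → (s f = v ∨ t f = v) → c e = c f → e = f

structure Rep (F : Finset E) (c : E → C) (g : C → V → V) : Prop where
  inv : ∀ a, Involutive (g a)
  edge : ∀ e ∈ F, g (c e) (s e) = t e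
  ex : ∀ a v, g a v ≠ v → ∃ e ∈ F, c e = a ∧ (s e = v ∨ t e = v)
  prop : Proper s t F c

variable {s t}

omit [DecidableEq V] [DecidableEq E] [DecidableEq C] [Fintype C] in
theorem exists_rep {F : Finset E} {c : E → C} (hc : Proper s t F c) : ∃ g, Rep s t F c g := by
  have h : ∀ (a : C) (v : V), ∃ w, (∃ e ∈ F, c e = a ∧ (s e = v ∧ t e = w ∨ t e = v ∧ s e = w)) ∨
      (w = v ∧ ∀ e ∈ F, c e = a → ¬ (s e = v ∨ t e = v)) := by
    intro a v
    by_cases h : ∃ e ∈ F, c e = a ∧ (s e = v ∨ t e = v)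
    · obtain ⟨e, he, h1, h2 | h2⟩ := h
      · exact ⟨t e, Or.inl ⟨e, he, h1, Or.inl ⟨h2, rfl⟩⟩⟩
      · exact ⟨s e, Or.inl ⟨e, he, h1, Or.inr ⟨h2, rfl⟩⟩⟩
    · exact ⟨v, Or.inr ⟨rfl, fun e he h1 h2 => h ⟨e, he, h1, h2⟩⟩⟩
  choose g hg using h
  have key : ∀ e ∈ F, g (c e) (s e) = t e ∧ g (c e) (t e) = s e := by
    intro e he
    constructor
    · rcases hg (c e) (s e) with ⟨f, hf, h1, h2⟩ | ⟨-, h⟩
      · obtain rfl := hc f hf e he (s e) (h2.imp And.left And.left) (Or.inl rfl) h1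
        rcases h2 with h2 | h2
        · exact h2.2.symm
        · exact h2.2.symm.trans h2.1.symm
      · exact (h e he rfl (Or.inl rfl)).elim
    · rcases hg (c e) (t e) with ⟨f, hf, h1, h2⟩ | ⟨-, h⟩
      · obtain rfl := hc f hf e he (t e) (h2.imp And.left And.left) (Or.inr rfl) h1
        rcases h2 with h2 | h2
        · exact h2.2.symm.trans h2.1.symm
        · exact h2.2.symm
      · exact (h e he rfl (Or.inr rfl)).elim
  refine ⟨g, fun a v => ?_, fun e he => (key e he).1, fun a v hv => ?_, hc⟩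
  · rcases hg a v with ⟨e, he, rfl, ⟨rfl, h⟩ | ⟨rfl, h⟩⟩ | ⟨h, -⟩
    · rw [← h, (key e he).2]
    · rw [← h, (key e he).1]
    · rw [h, h]
  · rcases hg a v with ⟨e, he, h1, h2⟩ | ⟨h, -⟩
    · exact ⟨e, he, h1, h2.imp And.left And.left⟩
    · exact (hv h).elim

omit [DecidableEq V] [DecidableEq E] [Fintype C] in
theorem Rep.swap {F : Finset E} {c : E → C} {g : C → V → V} (R : Rep s t F c g) (a b : C)
    (K : Set V) (ha : ∀ v ∈ K, g a v ∈ K) (hb : ∀ v ∈ K, g b v ∈ K) :
    ∃ c', Rep s t F c' (sw g a b K) := by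
  classical
  have hcl : ∀ x v, (x = a ∨ x = b) → (g x v ∈ K ↔ v ∈ K) := by
    rintro x v (rfl | rfl)
    · exact ⟨fun h => by simpa [R.inv x v] using ha _ h, ha v⟩
    · exact ⟨fun h => by simpa [R.inv x v] using hb _ h, hb v⟩
  have hsw : ∀ x, ¬ (x = a ∨ x = b) → Equiv.swap a b x = x := fun x hx =>
    Equiv.swap_apply_of_ne_of_ne (fun h => hx (Or.inl h)) fun h => hx (Or.inr h)
  have hsw' : ∀ x, (x = a ∨ x = b) → (Equiv.swap a b x = a ∨ Equiv.swap a b x = b) := by
    rintro x (rfl | rfl)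
    · exact Or.inr (Equiv.swap_apply_left _ _)
    · exact Or.inl (Equiv.swap_apply_right _ _)
  have hc' : ∀ e ∈ F, ∀ v, (s e = v ∨ t e = v) →
      (if s e ∈ K then Equiv.swap a b (c e) else c e) =
        if v ∈ K then Equiv.swap a b (c e) else c e := by
    rintro e he v (rfl | rfl)
    · rfl
    · by_cases hx : c e = a ∨ c e = b
      · have := hcl (c e) (s e) hx
        rw [R.edge e he] at this
        simp only [this]
      · simp only [hsw _ hx, ite_self]
  refine ⟨fun e => if s e ∈ K then Equiv.swap a b (c e) else c e, fun x v => ?_, fun e he => ?_,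
    fun x v hv => ?_, fun e he f hf v h1 h2 h => ?_⟩
  · by_cases hx : x = a ∨ x = b
    · by_cases hv : v ∈ K
      · rw [sw_in hv, sw_in ((hcl _ v (hsw' x hx)).2 hv), R.inv]
      · rw [sw_out hv, sw_out (fun h => hv ((hcl x v hx).1 h)), R.inv]
    · rw [sw_other (fun h => hx (Or.inl h)) (fun h => hx (Or.inr h)),
        sw_other (fun h => hx (Or.inl h)) (fun h => hx (Or.inr h)), R.inv]
  · by_cases hv : s e ∈ K
    · rw [if_pos hv, sw_in hv, Equiv.swap_apply_self, R.edge e he]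
    · rw [if_neg hv, sw_out hv, R.edge e he]
  · by_cases hK : v ∈ K
    · rw [sw_in hK] at hv
      obtain ⟨e, he, h1, h2⟩ := R.ex _ v hv
      exact ⟨e, he, by rw [hc' e he v h2, if_pos hK, h1, Equiv.swap_apply_self], h2⟩
    · rw [sw_out hK] at hv
      obtain ⟨e, he, h1, h2⟩ := R.ex _ v hv
      exact ⟨e, he, by rw [hc' e he v h2, if_neg hK, h1], h2⟩
  · rw [hc' e he v h1, hc' f hf v h2] at h
    refine R.prop e he f hf v h1 h2 ?_
    by_cases hK : v ∈ K
    · rw [if_pos hK, if_pos hK] at h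
      exact (Equiv.swap a b).injective h
    · rwa [if_neg hK, if_neg hK] at h

omit [DecidableEq E] in
theorem Rep.miss {F : Finset E} {c : E → C} {g : C → V → V} (R : Rep s t F c g) (v : V) :
    Fintype.card C ≤ (univ.filter fun a => g a v = v).card +
      (F.filter fun e => s e = v ∨ t e = v).card := by
  have h1 : (univ.filter fun a => ¬ g a v = v) ⊆ (F.filter fun e => s e = v ∨ t e = v).image c := by
    intro a ha
    obtain ⟨e, he, h1, h2⟩ := R.ex a v (mem_filter.1 ha).2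
    exact mem_image.2 ⟨e, mem_filter.2 ⟨he, h2⟩, h1⟩
  have h2 := (card_le_card h1).trans card_image_le
  have h3 := card_filter_add_card_filter_not (s := univ) (fun a => g a v = v)
  rw [card_univ] at h3
  omega

omit [Fintype C] [DecidableEq E] in
theorem Rep.count {F : Finset E} {c : E → C} {g : C → V → V} (R : Rep s t F c g) (U : Finset V)
    (a : C) : (U.filter fun u => g a u ∈ U ∧ g a u ≠ u).card ≤
      2 * ((F.filter fun e => s e ∈ U ∧ t e ∈ U).filter fun e => c e = a).card := by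
  have h1 : (U.filter fun u => g a u ∈ U ∧ g a u ≠ u) ⊆
      ((F.filter fun e => s e ∈ U ∧ t e ∈ U).filter fun e => c e = a).image s ∪
        ((F.filter fun e => s e ∈ U ∧ t e ∈ U).filter fun e => c e = a).image t := by
    intro u hu
    obtain ⟨h1, h2, h3⟩ := mem_filter.1 hu
    obtain ⟨e, he, rfl, h⟩ := R.ex a u h3
    have h4 := R.edge e he
    rcases h with rfl | rfl
    · exact mem_union_left _ (mem_image_of_mem _
        (mem_filter.2 ⟨mem_filter.2 ⟨he, h1, h4 ▸ h2⟩, rfl⟩))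
    · refine mem_union_right _ (mem_image_of_mem _
        (mem_filter.2 ⟨mem_filter.2 ⟨he, ?_, h1⟩, rfl⟩))
      rwa [← h4, R.inv] at h2
  have h2 := (card_le_card h1).trans (card_union_le _ _)
  have h3 := card_image_le
    (s := (F.filter fun e => s e ∈ U ∧ t e ∈ U).filter fun e => c e = a) (f := s)
  have h4 := card_image_le
    (s := (F.filter fun e => s e ∈ U ∧ t e ∈ U).filter fun e => c e = a) (f := t)
  omega

omit [Fintype C] [DecidableEq V] [DecidableEq C] in
theorem Rep.fill {F : Finset E} {c : E → C} {g : C → V → V} (R : Rep s t F c g)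
    (hl : ∀ e, s e ≠ t e) {e₀ : E} (he₀ : e₀ ∉ F) {a : C} (h1 : g a (s e₀) = s e₀)
    (h2 : g a (t e₀) = t e₀) : Proper s t (insert e₀ F) (update c e₀ a) := by
  have hne : ∀ e ∈ F, update c e₀ a e = c e := fun e he =>
    update_of_ne (fun h : e = e₀ => he₀ (h ▸ he)) _ _
  have key : ∀ f ∈ F, ∀ v, (s e₀ = v ∨ t e₀ = v) → (s f = v ∨ t f = v) → c f ≠ a := by
    rintro f hf v h3 h4 rfl
    have h5 : g (c f) v = v := by rcases h3 with rfl | rfl <;> assumption
    have h6 := R.edge f hf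
    rcases h4 with rfl | rfl
    · exact hl f (h5.symm.trans h6)
    · exact hl f ((R.inv (c f)).injective (h6.trans h5.symm))
  intro e he f hf v h3 h4 h5
  rcases mem_insert.1 he with rfl | he' <;> rcases mem_insert.1 hf with rfl | hf'
  · rfl
  · rw [update_self, hne f hf'] at h5
    exact (key f hf' v h3 h4 h5.symm).elim
  · rw [update_self, hne e he'] at h5
    exact (key e he' v h4 h3 h5).elim
  · rw [hne e he', hne f hf'] at h5
    exact R.prop e he' f hf' v h3 h4 h5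

theorem extend [Fintype V] {σ : ℕ} (hl : ∀ e, s e ≠ t e) (hq : Fintype.card C ≤ σ * (σ - 1))
    (hσ : 0 < σ) {S : Finset E}
    (hdeg : ∀ v, (S.filter fun e => s e = v ∨ t e = v).card + σ ≤ Fintype.card C)
    (hden : ∀ U : Finset V, Odd U.card →
      2 * (S.filter fun e => s e ∈ U ∧ t e ∈ U).card ≤ Fintype.card C * (U.card - 1))
    {F : Finset E} (hFS : F ⊆ S) {e₀ : E} (heS : e₀ ∈ S) (he₀ : e₀ ∉ F) {c₀ : E → C}
    (hc₀ : Proper s t F c₀) : ∃ c : E → C, Proper s t (insert e₀ F) c := by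
  by_contra hno
  have hF : Fam {g | ∃ c : E → C, Rep s t F c g} (s e₀) (t e₀) σ := by
    refine ⟨fun g ⟨c, R⟩ => R.inv, fun g ⟨c, R⟩ => R.swap, fun g ⟨c, R⟩ v => ?_,
      fun g ⟨c, R⟩ a h1 h2 => hno ⟨update c e₀ a, R.fill hl he₀ h1 h2⟩, hl e₀, hq, hσ⟩
    have := R.miss v
    have := hdeg v
    have := card_le_card (filter_subset_filter (fun e => s e = v ∨ t e = v) hFS)
    omega
  obtain ⟨g₀, R₀⟩ := exists_rep hc₀
  obtain ⟨g, ⟨c, R⟩, U, h1, h2, h3, h4⟩ := core hF ⟨g₀, c₀, R₀⟩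
  have h5 : Fintype.card C * (U.card - 1) ≤ 2 * (F.filter fun e => s e ∈ U ∧ t e ∈ U).card := by
    rw [card_eq_sum_card_fiberwise (f := c) (t := univ) (fun _ _ => mem_coe.2 (mem_univ _)),
      mul_sum]
    calc Fintype.card C * (U.card - 1) = ∑ _a : C, (U.card - 1) := by simp
      _ ≤ _ := sum_le_sum fun a _ => by
        have := R.count U a
        have := h4 a
        omega
  have h6 : (F.filter fun e => s e ∈ U ∧ t e ∈ U).card <
      (S.filter fun e => s e ∈ U ∧ t e ∈ U).card :=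
    card_lt_card ⟨filter_subset_filter _ hFS,
      fun h => he₀ (mem_filter.1 (h (mem_filter.2 ⟨heS, h1, h2⟩))).1⟩
  have := hden U h3
  omega

theorem extend_bip (hl : ∀ e, s e ≠ t e) (L : V → Prop) (hs : ∀ e, L (s e)) (ht : ∀ e, ¬ L (t e))
    {S : Finset E} (hdeg : ∀ v, (S.filter fun e => s e = v ∨ t e = v).card ≤ Fintype.card C)
    {F : Finset E} (hFS : F ⊆ S) {e₀ : E} (heS : e₀ ∈ S) (he₀ : e₀ ∉ F) {c₀ : E → C}
    (hc₀ : Proper s t F c₀) : ∃ c : E → C, Proper s t (insert e₀ F) c := by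
  obtain ⟨g, R⟩ := exists_rep hc₀
  have hm : ∀ v, (s e₀ = v ∨ t e₀ = v) → ∃ a, g a v = v := by
    intro v hv
    have h1 := R.miss v
    have h2 := hdeg v
    have h3 : (F.filter fun e => s e = v ∨ t e = v).card <
        (S.filter fun e => s e = v ∨ t e = v).card :=
      card_lt_card ⟨filter_subset_filter _ hFS,
        fun h => he₀ (mem_filter.1 (h (mem_filter.2 ⟨heS, hv⟩))).1⟩
    obtain ⟨a, ha⟩ := card_pos.1 (show 0 < (univ.filter fun a => g a v = v).card by omega)
    exact ⟨a, (mem_filter.1 ha).2⟩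
  have hside : ∀ a v, g a v ≠ v → (L (g a v) ↔ ¬ L v) := by
    intro a v hv
    obtain ⟨e, he, rfl, h | h⟩ := R.ex a v hv
    · subst h
      rw [R.edge e he]
      simp [hs e, ht e]
    · subst h
      have : g (c₀ e) (t e) = s e := by rw [← R.edge e he, R.inv]
      rw [this]
      simp [hs e, ht e]
  obtain ⟨β, hβ⟩ := hm _ (Or.inl rfl)
  obtain ⟨γ, hγ⟩ := hm _ (Or.inr rfl)
  let K : Set V := {w | ∀ M : Set V, t e₀ ∈ M → (∀ u ∈ M, ¬ L u → g β u ∈ M) →
    (∀ u ∈ M, L u → g γ u ∈ M) → w ∈ M}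
  have k0 : t e₀ ∈ K := fun _ h _ _ => h
  have k1 : ∀ u ∈ K, ¬ L u → g β u ∈ K := fun u hu hL M a b c => b u (hu M a b c) hL
  have k2 : ∀ u ∈ K, L u → g γ u ∈ K := fun u hu hL M a b c => c u (hu M a b c) hL
  have kc : ∀ u ∈ K, u ∈ K ∧ g β u ∈ K ∧ g γ u ∈ K ∧ u ≠ s e₀ := by
    intro u hu
    refine hu {u | u ∈ K ∧ g β u ∈ K ∧ g γ u ∈ K ∧ u ≠ s e₀}
      ⟨k0, k1 _ k0 (ht _), by rw [hγ]; exact k0, (hl _).symm⟩ ?_ ?_
    · rintro w ⟨w1, w2, w3, w4⟩ hL
      by_cases h : g β w = w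
      · rw [h]; exact ⟨w1, w2, w3, w4⟩
      · refine ⟨w2, by rw [R.inv]; exact w1, k2 _ w2 ((hside _ _ h).2 hL), fun h' => w4 ?_⟩
        rw [← R.inv β w, h', hβ]
    · rintro w ⟨w1, w2, w3, w4⟩ hL
      by_cases h : g γ w = w
      · rw [h]; exact ⟨w1, w2, w3, w4⟩
      · have h' : ¬ L (g γ w) := fun h' => (hside _ _ h).1 h' hL
        exact ⟨w3, k1 _ w3 h', by rw [R.inv]; exact w1, fun h'' => h' (h'' ▸ hs _)⟩
  obtain ⟨c', R'⟩ := R.swap β γ K (fun v hv => (kc v hv).2.1) (fun v hv => (kc v hv).2.2.1)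
  refine ⟨update c' e₀ β, R'.fill hl he₀ ?_ ?_⟩
  · rw [sw_out (fun h => (kc _ h).2.2.2 rfl), hβ]
  · rw [sw_in k0, Equiv.swap_apply_left, hγ]

end Tash

theorem gl {V E : Type} [Fintype V] [DecidableEq V] [DecidableEq E] (s t : E → V) (S : Finset E)
    (q σ : ℕ) (hl : ∀ e, s e ≠ t e) (hq0 : 0 < q) (hq : q ≤ σ * (σ - 1))
    (hdeg : ∀ v, (S.filter fun e => s e = v ∨ t e = v).card + σ ≤ q)
    (hden : ∀ U : Finset V, Odd U.card →
      2 * (S.filter fun e => s e ∈ U ∧ t e ∈ U).card ≤ q * (U.card - 1)) :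
    ∃ c : E → Fin q, ∀ e ∈ S, ∀ f ∈ S, ∀ v, (s e = v ∨ t e = v) → (s f = v ∨ t f = v) →
      c e = c f → e = f := by
  have hσ : 0 < σ := by
    rcases Nat.eq_zero_or_pos σ with rfl | h
    · omega
    · exact h
  have key : ∀ F : Finset E, F ⊆ S → ∃ c : E → Fin q, Tash.Proper s t F c := by
    intro F
    induction F using Finset.induction_on with
    | empty => exact fun _ => ⟨fun _ => ⟨0, hq0⟩, fun e he => absurd he (notMem_empty e)⟩
    | insert e F he ih =>
      intro h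
      obtain ⟨c, hc⟩ := ih ((subset_insert _ _).trans h)
      exact Tash.extend hl (by simpa using hq) hσ (by simpa using hdeg) (by simpa using hden)
        ((subset_insert _ _).trans h) (h (mem_insert_self _ _)) he hc
  exact key S subset_rfl

theorem konig {L R E : Type} [DecidableEq L] [DecidableEq R] [Fintype E] [DecidableEq E]
    (s : E → L) (t : E → R) (m : ℕ) (hm : 0 < m)
    (hs : ∀ v, (univ.filter fun e => s e = v).card ≤ m)
    (ht : ∀ v, (univ.filter fun e => t e = v).card ≤ m) :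
    ∃ c : E → Fin m, ∀ e f, (s e = s f ∨ t e = t f) → c e = c f → e = f := by
  have key : ∀ F : Finset E, ∃ c : E → Fin m,
      Tash.Proper (fun e => (Sum.inl (s e) : L ⊕ R)) (fun e => Sum.inr (t e)) F c := by
    intro F
    induction F using Finset.induction_on with
    | empty => exact ⟨fun _ => ⟨0, hm⟩, fun e he => absurd he (notMem_empty e)⟩
    | insert e F he ih =>
      obtain ⟨c, hc⟩ := ih
      refine Tash.extend_bip (S := univ) (by simp) (fun v => v.isLeft = true) (by simp) (by simp)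
        ?_ (subset_univ _) (mem_univ _) he hc
      rintro (v | v)
      · simpa using hs v
      · simpa using ht v
  obtain ⟨c, hc⟩ := key univ
  refine ⟨c, fun e f h => ?_⟩
  rcases h with h | h
  · exact hc e (mem_univ _) f (mem_univ _) (Sum.inl (s e)) (Or.inl rfl) (Or.inl (by simp [h]))
  · exact hc e (mem_univ _) f (mem_univ _) (Sum.inr (t e)) (Or.inr rfl) (Or.inr (by simp [h]))

end Pool.Agent.P.MP_e2f256_co
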