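import Mathlib

namespace Pool.Agent.P.MP_e2f256_co

open Finset Function

variable {O F : Type} [DecidableEq O] [DecidableEq F]

def Inc (a b : O → F) (sec : F → Finset O) (x : O) (f : F) : Prop :=
  a x = f ∨ b x = f ∨ x ∈ sec f

instance (a b : O → F) (sec : F → Finset O) (x : O) (f : F) : Decidable (Inc a b sec x f) := by
  unfold Inc; infer_instance

def Good {C : Type} (a b : O → F) (sec : F → Finset O) (U : Finset O) (c : O → C) : Prop :=
  ∀ f, ∀ x ∈ U, ∀ y ∈ U, Inc a b sec x f → Inc a b sec y f → c x = c y → x = y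

omit [DecidableEq O] [DecidableEq F] in
theorem two_le_sum {α : Type} (S : Finset α) (W : Finset F) (R : α → F → Prop)
    [∀ x f, Decidable (R x f)] (h : ∀ x ∈ S, ∃ u ∈ W, ∃ v ∈ W, u ≠ v ∧ R x u ∧ R x v) :
    2 * S.card ≤ ∑ f ∈ W, (S.filter fun x => R x f).card := by
  classical
  have h1 : ∑ f ∈ W, (S.filter fun x => R x f).card = ∑ x ∈ S, (W.filter fun f => R x f).card := by
    simp only [card_filter]
    exact sum_comm
  rw [h1, mul_comm, ← smul_eq_mul, ← sum_const]
  refine sum_le_sum fun x hx => ?_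
  obtain ⟨u, hu, v, hv, h1, h2, h3⟩ := h x hx
  rw [← card_pair h1]
  refine card_le_card ?_
  intro w hw
  rcases mem_insert.1 hw with rfl | hw
  · exact mem_filter.2 ⟨hu, h2⟩
  · rw [mem_singleton.1 hw]; exact mem_filter.2 ⟨hv, h3⟩

theorem hall_step [Fintype O] {a b : O → F} {sec : F → Finset O} {k Δ : ℕ} (hk : 3 * Δ ≤ 2 * k + 1)
    (hab : ∀ x, a x ≠ b x) (hsize : ∀ f, (univ.filter fun x => Inc a b sec x f).card ≤ Δ)
    {U T : Finset O} {W : Finset F} (hW : W.card = 3) (hpure : ∀ x ∈ T, ∀ f, x ∉ sec f)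
    (hin : ∀ x ∈ T, a x ∈ W ∧ b x ∈ W) (hw : 4 * Δ ≤ 2 * T.card + k) {c : O → Fin k}
    (hc : Good a b sec (U \ T) c) : ∃ c' : O → Fin k, Good a b sec U c' := by
  let A : F → Finset (Fin k) := fun f => ((U \ T).filter fun x => Inc a b sec x f).image c
  let d : F → ℕ := fun f => (T.filter fun x => a x = f ∨ b x = f).card
  have hAd : ∀ f, (A f).card + d f ≤ Δ := by
    intro f
    have h1 : (A f).card ≤ ((U \ T).filter fun x => Inc a b sec x f).card := card_image_le
    have h2 : Disjoint ((U \ T).filter fun x => Inc a b sec x f)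
        (T.filter fun x => a x = f ∨ b x = f) :=
      disjoint_left.2 fun x h1 h2 => (mem_sdiff.1 (mem_filter.1 h1).1).2 (mem_filter.1 h2).1
    have h3 := card_union_of_disjoint h2
    have h4 : ((U \ T).filter fun x => Inc a b sec x f) ∪ (T.filter fun x => a x = f ∨ b x = f) ⊆
        univ.filter fun x => Inc a b sec x f := by
      intro x hx
      refine mem_filter.2 ⟨mem_univ _, ?_⟩
      rcases mem_union.1 hx with h | h
      · exact (mem_filter.1 h).2
      · rcases (mem_filter.1 h).2 with h | h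
        · exact Or.inl h
        · exact Or.inr (Or.inl h)
    have h5 := (card_le_card h4).trans (hsize f)
    show (A f).card + (T.filter fun x => a x = f ∨ b x = f).card ≤ Δ
    omega
  have hd : 2 * T.card ≤ ∑ f ∈ W, d f :=
    two_le_sum T W (fun x f => a x = f ∨ b x = f) fun x hx =>
      ⟨a x, (hin x hx).1, b x, (hin x hx).2, hab x, Or.inl rfl, Or.inr rfl⟩
  have hs : ∑ f ∈ W, (A f).card + ∑ f ∈ W, d f ≤ 3 * Δ := by
    rw [← sum_add_distrib, ← hW, ← smul_eq_mul, ← sum_const]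
    exact sum_le_sum fun f _ => hAd f
  have hA : ∀ f ∈ W, (A f).card + Δ ≤ k := fun f hf => by
    have := single_le_sum (f := fun f => (A f).card) (fun _ _ => Nat.zero_le _) hf
    omega
  obtain ⟨φ, hφ, hφ'⟩ := (all_card_le_biUnion_card_iff_exists_injective
    (fun x : {x // x ∈ T} => (A (a x) ∪ A (b x))ᶜ)).1 (by
    intro S
    have hST : ∀ P : O → Prop, ∀ [DecidablePred P], (∀ x ∈ S, P x.1) →
        S.card ≤ (T.filter P).card := by
      intro P _ hP
      refine card_le_card_of_injOn (fun x => x.1) (fun x hx => ?_) (fun x _ y _ e => Subtype.ext e)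
      exact mem_coe.2 (mem_filter.2 ⟨x.2, hP x hx⟩)
    rcases S.eq_empty_or_nonempty with rfl | ⟨x₀, hx₀⟩
    · simp
    by_cases h : ∃ v, ∀ x ∈ S, a x.1 = v ∨ b x.1 = v
    · obtain ⟨v, hv⟩ := h
      have h1 : S.card ≤ d v := hST _ hv
      have h2 : ((A (a x₀) ∪ A (b x₀))ᶜ).card ≤
          (S.biUnion fun x : {x // x ∈ T} => (A (a x) ∪ A (b x))ᶜ).card :=
        card_le_card (subset_biUnion_of_mem (fun x : {x // x ∈ T} => (A (a x) ∪ A (b x))ᶜ) hx₀)
      rw [card_compl, Fintype.card_fin] at h2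
      have h3 := card_union_le (A (a x₀)) (A (b x₀))
      have h4 := hA _ (hin _ x₀.2).1
      have h5 := hA _ (hin _ x₀.2).2
      have h6 := hAd v
      rcases hv x₀ hx₀ with h | h <;> rw [← h] at h6 h1 <;> omega
    · push Not at h
      have h1 : S.card ≤ T.card := by simpa using hST (fun _ => True) (fun _ _ => trivial)
      have h2 := two_le_sum (S.biUnion fun x : {x // x ∈ T} => (A (a x) ∪ A (b x))ᶜ)ᶜ W
        (fun γ f => γ ∈ A f) (by
          intro γ hγ
          have key : ∀ v, ∃ u ∈ W, u ≠ v ∧ γ ∈ A u := by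
            intro v
            obtain ⟨x, hx, h1, h2⟩ := h v
            have : γ ∈ A (a x) ∪ A (b x) := by
              by_contra hh
              exact mem_compl.1 hγ (mem_biUnion.2 ⟨x, hx, mem_compl.2 hh⟩)
            rcases mem_union.1 this with h3 | h3
            · exact ⟨_, (hin _ x.2).1, h1, h3⟩
            · exact ⟨_, (hin _ x.2).2, h2, h3⟩
          obtain ⟨u, hu, -, h1⟩ := key (a x₀)
          obtain ⟨v, hv, h2, h3⟩ := key u
          exact ⟨u, hu, v, hv, h2.symm, h1, h3⟩)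
      have h3 : ∑ f ∈ W, ((S.biUnion fun x : {x // x ∈ T} => (A (a x) ∪ A (b x))ᶜ)ᶜ.filter
          fun γ => γ ∈ A f).card ≤ ∑ f ∈ W, (A f).card :=
        sum_le_sum fun f _ => card_le_card fun γ hγ => (mem_filter.1 hγ).2
      rw [card_compl, Fintype.card_fin] at h2
      omega)
  have key : ∀ f x (hx : x ∈ T), ∀ y ∈ U, y ∉ T → Inc a b sec x f → Inc a b sec y f →
      φ ⟨x, hx⟩ ≠ c y := by
    intro f x hx y hy hyT h1 h2 e
    have h3 : c y ∈ A f := mem_image_of_mem _ (mem_filter.2 ⟨mem_sdiff.2 ⟨hy, hyT⟩, h2⟩)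
    have h4 := mem_compl.1 (hφ' ⟨x, hx⟩)
    rw [e] at h4
    rcases h1 with rfl | rfl | h1
    · exact h4 (mem_union_left _ h3)
    · exact h4 (mem_union_right _ h3)
    · exact hpure x hx f h1
  refine ⟨fun x => if h : x ∈ T then φ ⟨x, h⟩ else c x, fun f x hx y hy h1 h2 e => ?_⟩
  by_cases hxT : x ∈ T <;> by_cases hyT : y ∈ T <;> simp only [hxT, hyT, dif_pos, dif_neg,
    not_false_eq_true] at e
  · exact congrArg Subtype.val (hφ e)
  · exact absurd e (key f x hxT y hy hyT h1 h2)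
  · exact absurd e.symm (key f y hyT x hx hxT h2 h1)
  · exact hc f x (mem_sdiff.2 ⟨hx, hxT⟩) y (mem_sdiff.2 ⟨hy, hyT⟩) h1 h2 e

end Pool.Agent.P.MP_e2f256_co
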