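import Pool.Agent.P.MP_e2f256_co.Scheme
import Pool.Agent.P.MP_e2f256_co.Hall

namespace Pool.Agent.P.MP_e2f256_co

open Finset Function

variable {O F : Type} [Fintype O] [Fintype F] [DecidableEq O] [DecidableEq F]
  {a b : O → F} {sec : F → Finset O}

def Conf (a b : O → F) (sec : F → Finset O) (x y : O) : Prop :=
  x ≠ y ∧ ((y ∈ sec (a x) ∨ y ∈ sec (b x)) ∨ (x ∈ sec (a y) ∨ x ∈ sec (b y)) ∨
    ∃ f, x ∈ sec f ∧ y ∈ sec f)

instance (a b : O → F) (sec : F → Finset O) : DecidableRel (Conf a b sec) := by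
  intro x y; unfold Conf; infer_instance

omit [Fintype O] [Fintype F] [DecidableEq O] [DecidableEq F] in
theorem Conf.symm {x y : O} (h : Conf a b sec x y) : Conf a b sec y x := by
  obtain ⟨h1, h | h | ⟨f, h2, h3⟩⟩ := h
  · exact ⟨h1.symm, Or.inr (Or.inl h)⟩
  · exact ⟨h1.symm, Or.inl h⟩
  · exact ⟨h1.symm, Or.inr (Or.inr ⟨f, h3, h2⟩)⟩

omit [Fintype O] [DecidableEq F] in
theorem conf_sparse (hsec : ∀ f, (sec f).card ≤ 2)
    (hP : ∀ A : Finset O, ((A ×ˢ A).filter fun p =>
      p.1 ≠ p.2 ∧ ∃ f, p.1 ∈ sec f ∧ p.2 ∈ sec f).card ≤ 6 * A.card) (A : Finset O) :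
    ((A ×ˢ A).filter fun p => Conf a b sec p.1 p.2).card ≤ 14 * A.card := by
  let P : Finset (O × O) := A.biUnion fun x => (sec (a x) ∪ sec (b x)).image fun y => (x, y)
  have h1 : P.card ≤ A.card * 4 := by
    refine card_biUnion_le_card_mul _ _ _ fun x _ => card_image_le.trans ?_
    have := card_union_le (sec (a x)) (sec (b x))
    have := hsec (a x)
    have := hsec (b x)
    omega
  have h2 : (P.image Prod.swap).card ≤ P.card := card_image_le
  have h3 : ((A ×ˢ A).filter fun p => Conf a b sec p.1 p.2) ⊆ (P ∪ P.image Prod.swap) ∪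
      (A ×ˢ A).filter fun p => p.1 ≠ p.2 ∧ ∃ f, p.1 ∈ sec f ∧ p.2 ∈ sec f := by
    rintro ⟨x, y⟩ hp
    obtain ⟨hm, h1, h | h | h⟩ := mem_filter.1 hp
    · exact mem_union_left _ (mem_union_left _ (mem_biUnion.2 ⟨x, (mem_product.1 hm).1,
        mem_image.2 ⟨y, mem_union.2 h, rfl⟩⟩))
    · exact mem_union_left _ (mem_union_right _ (mem_image.2 ⟨(y, x), mem_biUnion.2
        ⟨y, (mem_product.1 hm).2, mem_image.2 ⟨x, mem_union.2 h, rfl⟩⟩, rfl⟩))
    · exact mem_union_right _ (mem_filter.2 ⟨hm, h1, h⟩)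
  have h4 := (card_le_card h3).trans (card_union_le _ _)
  have h5 := card_union_le P (P.image Prod.swap)
  have := hP A
  omega

theorem types (hsec : ∀ f, (sec f).card ≤ 2)
    (hP : ∀ A : Finset O, ((A ×ˢ A).filter fun p =>
      p.1 ≠ p.2 ∧ ∃ f, p.1 ∈ sec f ∧ p.2 ∈ sec f).card ≤ 6 * A.card) (U : Finset O) :
    ∃ ty : O → ℕ, (∀ x, ty x < 124) ∧ (∀ x y, Conf a b sec x y → ty x ≠ ty y) ∧
      (∀ f j, ((univ.filter fun x => a x = f).filter fun x => ty x = j).card ≤
        (univ.filter fun x => a x = f).card / 110 + 111) ∧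
      (∀ f j, ((univ.filter fun x => b x = f).filter fun x => ty x = j).card ≤
        (univ.filter fun x => b x = f).card / 110 + 111) ∧
      ∀ p q j, ((U.filter fun x => (∀ f, x ∉ sec f) ∧ a x = p ∧ b x = q).filter
        fun x => ty x = j).card ≤
          (U.filter fun x => (∀ f, x ∉ sec f) ∧ a x = p ∧ b x = q).card / 110 + 111 := by
  let Z : Finset O := univ.filter fun x => ∃ f, x ∈ sec f
  obtain ⟨r₀, r1, r2⟩ := degen (Conf a b sec) 14 Z fun A _ => conf_sparse hsec hP A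
  obtain ⟨code, hcode⟩ := exists_injective_nat (Bool × F × F)
  obtain ⟨e, he⟩ := exists_injective_nat O
  let g : O → ℕ := fun x =>
    if x ∈ Z then r₀ x else Z.sup r₀ + 1 + code (decide (x ∈ U), a x, b x)
  have g1 : ∀ x ∈ Z, g x = r₀ x := fun x hx => if_pos hx
  have g2 : ∀ x ∉ Z, g x = Z.sup r₀ + 1 + code (decide (x ∈ U), a x, b x) := fun x hx => if_neg hx
  have g3 : ∀ x ∈ Z, r₀ x ≤ Z.sup r₀ := fun x hx => le_sup hx
  let r : O → ℕ ×ₗ ℕ := fun x => toLex (g x, e x)
  have hr : Injective r := fun x y h => he (congrArg (fun p => (ofLex p).2) h)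
  have hle : ∀ x y, r x ≤ r y → g x ≤ g y := fun x y h => by
    rcases Prod.Lex.toLex_le_toLex.1 h with h | h
    · exact h.le
    · exact h.1.le
  obtain ⟨ty, t1, t2, t3⟩ := scheme r a b (fun x => univ.filter fun y => Conf a b sec x y ∧ r y < r x)
    110 14 hr (by norm_num) (fun x => by
      by_cases hx : x ∈ Z
      · refine le_trans (card_le_card fun y hy => ?_) (r2 x hx)
        obtain ⟨-, y1, y2⟩ := mem_filter.1 hy
        have h1 := hle _ _ y2.le
        have h2 := g3 x hx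
        rw [g1 x hx] at h1
        have hy : y ∈ Z := by
          by_contra hy
          rw [g2 y hy] at h1
          omega
        rw [g1 y hy] at h1
        exact mem_filter.2 ⟨hy, y1, lt_of_le_of_ne h1 fun h => y1.1 (r1 hy hx h).symm⟩
      · have h1 : ∀ f, x ∉ sec f := fun f hf => hx (mem_filter.2 ⟨mem_univ _, f, hf⟩)
        have h2 : (univ.filter fun y => Conf a b sec x y ∧ r y < r x) ⊆ sec (a x) ∪ sec (b x) := by
          intro y hy
          obtain ⟨-, ⟨-, h | h | ⟨f, h, -⟩⟩, -⟩ := mem_filter.1 hy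
          · exact mem_union.2 h
          · exact (h.elim (h1 _) (h1 _)).elim
          · exact (h1 _ h).elim
        have := (card_le_card h2).trans (card_union_le _ _)
        have := hsec (a x)
        have := hsec (b x)
        omega) (fun x y hy => (mem_filter.1 hy).2.2)
  refine ⟨ty, t1, fun x y h => ?_, fun f => ?_, fun f => ?_, fun p q => ?_⟩
  · rcases lt_trichotomy (r x) (r y) with h1 | h1 | h1
    · exact (t2 y x (mem_filter.2 ⟨mem_univ _, h.symm, h1⟩)).symm
    · exact absurd (hr h1) h.1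
    · exact t2 x y (mem_filter.2 ⟨mem_univ _, h, h1⟩)
  · exact t3 a (Or.inl rfl) f _ (fun x hx => (mem_filter.1 hx).2)
      fun _ _ _ _ y _ _ h => mem_filter.2 ⟨mem_univ _, h⟩
  · exact t3 b (Or.inr rfl) f _ (fun x hx => (mem_filter.1 hx).2)
      fun _ _ _ _ y _ _ h => mem_filter.2 ⟨mem_univ _, h⟩
  · refine t3 a (Or.inl rfl) p _ (fun x hx => (mem_filter.1 hx).2.2.1) ?_
    intro x hx z hz y h1 h2 _
    obtain ⟨x1, x2, x3, x4⟩ := mem_filter.1 hx
    obtain ⟨z1, z2, z3, z4⟩ := mem_filter.1 hz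
    have hx' : x ∉ Z := fun h => by
      obtain ⟨-, f, hf⟩ := mem_filter.1 h
      exact x2 f hf
    have hz' : z ∉ Z := fun h => by
      obtain ⟨-, f, hf⟩ := mem_filter.1 h
      exact z2 f hf
    have h3 := hle _ _ h1
    have h4 := hle _ _ h2
    rw [g2 x hx', x3, x4, decide_eq_true x1] at h3
    rw [g2 z hz', z3, z4, decide_eq_true z1] at h4
    have hy : y ∉ Z := fun h => by
      have := g3 y h
      rw [g1 y h] at h3
      omega
    rw [g2 y hy] at h3 h4
    have h5 := hcode (show code (decide (y ∈ U), a y, b y) = code (true, p, q) by omega)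
    simp only [Prod.mk.injEq, decide_eq_true_eq] at h5
    exact mem_filter.2 ⟨h5.1, fun f hf => hy (mem_filter.2 ⟨mem_univ _, f, hf⟩), h5.2⟩

theorem base {Δ : ℕ} (hΔ : 1000000 ≤ Δ) (hab : ∀ x, a x ≠ b x) (hsec : ∀ f, (sec f).card ≤ 2)
    (hsize : ∀ f, (univ.filter fun x => Inc a b sec x f).card ≤ Δ)
    (hP : ∀ A : Finset O, ((A ×ˢ A).filter fun p =>
      p.1 ≠ p.2 ∧ ∃ f, p.1 ∈ sec f ∧ p.2 ∈ sec f).card ≤ 6 * A.card)
    (hZ : ∀ p q, (univ.filter fun x => (∃ f, x ∈ sec f) ∧ a x = p ∧ b x = q).card ≤ 2)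
    (U : Finset O) (hU : ∀ W : Finset F, W.card = 3 →
      2 * (U.filter fun x => (∀ f, x ∉ sec f) ∧ a x ∈ W ∧ b x ∈ W).card + 3 * Δ / 2 < 4 * Δ) :
    ∃ c : O → Fin (3 * Δ / 2), Good a b sec U c := by
  obtain ⟨ty, t1, t2, t3, t4, t5⟩ := types (a := a) (b := b) hsec hP U
  obtain ⟨K, hK⟩ : ∃ K, K = 3 * Δ / 2 / 124 := ⟨_, rfl⟩
  obtain ⟨D, hD⟩ : ∃ D, D = Δ / 110 + 222 := ⟨_, rfl⟩
  have hdeg : ∀ j v, ((U.filter fun x => ty x = j).filter fun x => a x = v ∨ b x = v).card ≤ D := by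
    intro j v
    have h1 : ((U.filter fun x => ty x = j).filter fun x => a x = v ∨ b x = v) ⊆
        ((univ.filter fun x => a x = v).filter fun x => ty x = j) ∪
          ((univ.filter fun x => b x = v).filter fun x => ty x = j) := by
      intro x hx
      simp only [mem_filter, mem_union, mem_univ, true_and] at hx ⊢
      tauto
    have h2 := (card_le_card h1).trans (card_union_le _ _)
    have h3 : Disjoint (univ.filter fun x => a x = v) (univ.filter fun x => b x = v) :=
      disjoint_left.2 fun x h1 h2 => hab x ((mem_filter.1 h1).2.trans (mem_filter.1 h2).2.symm)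
    have h4 := card_union_of_disjoint h3
    have h5 : (univ.filter fun x => a x = v) ∪ (univ.filter fun x => b x = v) ⊆
        univ.filter fun x => Inc a b sec x v := by
      intro x hx
      simp only [mem_filter, mem_union, mem_univ, true_and, Inc] at hx ⊢
      tauto
    have h6 := (card_le_card h5).trans (hsize v)
    have := t3 v j
    have := t4 v j
    omega
  have htri : ∀ j (W : Finset F), W.card = 3 →
      ((U.filter fun x => ty x = j).filter fun x => a x ∈ W ∧ b x ∈ W).card ≤ K := by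
    intro j W hW
    let J : F × F → Finset O := fun p => U.filter fun x => (∀ f, x ∉ sec f) ∧ a x = p.1 ∧ b x = p.2
    have h1 : ((U.filter fun x => ty x = j).filter fun x => a x ∈ W ∧ b x ∈ W) ⊆
        W.offDiag.biUnion fun p => (univ.filter fun x => (∃ f, x ∈ sec f) ∧ a x = p.1 ∧ b x = p.2) ∪
          (J p).filter fun x => ty x = j := by
      intro x hx
      obtain ⟨hx, x1, x2⟩ := mem_filter.1 hx
      obtain ⟨x3, x4⟩ := mem_filter.1 hx
      refine mem_biUnion.2 ⟨(a x, b x), mem_offDiag.2 ⟨x1, x2, hab x⟩, ?_⟩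
      by_cases h : ∃ f, x ∈ sec f
      · exact mem_union_left _ (mem_filter.2 ⟨mem_univ _, h, rfl, rfl⟩)
      · exact mem_union_right _ (mem_filter.2 ⟨mem_filter.2 ⟨x3, not_exists.1 h, rfl, rfl⟩, x4⟩)
    have h2 := (card_le_card h1).trans card_biUnion_le
    have h3 : ∑ p ∈ W.offDiag, ((univ.filter fun x => (∃ f, x ∈ sec f) ∧ a x = p.1 ∧ b x = p.2) ∪
        (J p).filter fun x => ty x = j).card ≤ ∑ p ∈ W.offDiag, ((J p).card / 110 + 113) :=
      sum_le_sum fun p _ => by
        have h1 := card_union_le (univ.filter fun x => (∃ f, x ∈ sec f) ∧ a x = p.1 ∧ b x = p.2)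
          ((J p).filter fun x => ty x = j)
        have h2 := hZ p.1 p.2
        have h3 : ((J p).filter fun x => ty x = j).card ≤ (J p).card / 110 + 111 := t5 p.1 p.2 j
        omega
    rw [sum_add_distrib, sum_const, offDiag_card, hW, smul_eq_mul] at h3
    have h4 : 110 * ∑ p ∈ W.offDiag, (J p).card / 110 ≤ ∑ p ∈ W.offDiag, (J p).card := by
      rw [mul_sum]
      exact sum_le_sum fun p _ => Nat.mul_div_le _ _
    have h5 : ∑ p ∈ W.offDiag, (J p).card ≤
        (U.filter fun x => (∀ f, x ∉ sec f) ∧ a x ∈ W ∧ b x ∈ W).card := by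
      rw [← card_biUnion]
      · refine card_le_card fun x hx => ?_
        obtain ⟨p, hp, hx⟩ := mem_biUnion.1 hx
        obtain ⟨x1, x2, x3, x4⟩ := mem_filter.1 hx
        obtain ⟨p1, p2, -⟩ := mem_offDiag.1 hp
        exact mem_filter.2 ⟨x1, x2, x3 ▸ p1, x4 ▸ p2⟩
      · intro p _ q _ hpq
        refine disjoint_left.2 fun x h1 h2 => hpq ?_
        obtain ⟨-, -, x3, x4⟩ := mem_filter.1 h1
        obtain ⟨-, -, y3, y4⟩ := mem_filter.1 h2
        exact Prod.ext (x3.symm.trans y3) (x4.symm.trans y4)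
    have h6 := hU W hW
    omega
  have hcol : ∀ j, ∃ c : O → Fin K, ∀ e ∈ U.filter fun x => ty x = j,
      ∀ f ∈ U.filter fun x => ty x = j, ∀ v, (a e = v ∨ b e = v) → (a f = v ∨ b f = v) →
      c e = c f → e = f := by
    intro j
    refine gl a b _ K (K - D) hab (by omega) ?_ (fun v => ?_) (fun W hW => ?_)
    · calc K ≤ (K - D) * 5 := by omega
        _ ≤ _ := Nat.mul_le_mul_left _ (by omega)
    · have := hdeg j v
      omega
    · obtain ⟨n, hn⟩ := hW
      rcases n with _ | _ | n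
      · obtain ⟨w, rfl⟩ := card_eq_one.1 hn
        rw [filter_eq_empty_iff.2]
        · simp
        · intro x _ h
          exact hab x ((mem_singleton.1 h.1).trans (mem_singleton.1 h.2).symm)
      · have := htri j W hn
        rw [hn]
        omega
      · have h1 := two_le_sum ((U.filter fun x => ty x = j).filter fun x => a x ∈ W ∧ b x ∈ W) W
          (fun x f => a x = f ∨ b x = f) fun x hx =>
          ⟨a x, (mem_filter.1 hx).2.1, b x, (mem_filter.1 hx).2.2, hab x, Or.inl rfl, Or.inr rfl⟩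
        have h2 : ∑ f ∈ W, (((U.filter fun x => ty x = j).filter fun x => a x ∈ W ∧ b x ∈ W).filter
            fun x => a x = f ∨ b x = f).card ≤ ∑ _f ∈ W, D :=
          sum_le_sum fun f _ => le_trans (card_le_card
            (filter_subset_filter _ (filter_subset _ _))) (hdeg j f)
        rw [sum_const, smul_eq_mul, hn] at h2
        have h3 : 5 * D ≤ 4 * K := by omega
        rw [hn]
        refine (h1.trans h2).trans ?_
        show _ ≤ K * (2 * (n + 1 + 1))
        nlinarith [Nat.zero_le n, Nat.zero_le D]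
  choose c hc using hcol
  obtain ⟨ι⟩ : Nonempty (Fin 124 × Fin K ↪ Fin (3 * Δ / 2)) :=
    Function.Embedding.nonempty_of_card_le (by simp; omega)
  refine ⟨fun x => ι (⟨ty x, t1 x⟩, c (ty x) x), fun f x hx y hy h1 h2 e => ?_⟩
  have e1 := ι.injective e
  simp only [Prod.mk.injEq, Fin.mk.injEq] at e1
  obtain ⟨e1, e2⟩ := e1
  by_contra hne
  have hno : ¬ Conf a b sec x y := fun h => t2 x y h e1
  have hx' : a x = f ∨ b x = f := by
    by_contra h
    have h3 : x ∈ sec f := by
      rcases h1 with h1 | h1 | h1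
      · exact absurd (Or.inl h1) h
      · exact absurd (Or.inr h1) h
      · exact h1
    rcases h2 with rfl | rfl | h2
    · exact hno ⟨hne, Or.inr (Or.inl (Or.inl h3))⟩
    · exact hno ⟨hne, Or.inr (Or.inl (Or.inr h3))⟩
    · exact hno ⟨hne, Or.inr (Or.inr ⟨f, h3, h2⟩)⟩
  have hy' : a y = f ∨ b y = f := by
    rcases h2 with h2 | h2 | h2
    · exact Or.inl h2
    · exact Or.inr h2
    · rcases hx' with rfl | rfl
      · exact absurd ⟨hne, Or.inl (Or.inl h2)⟩ hno
      · exact absurd ⟨hne, Or.inl (Or.inr h2)⟩ hno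
  rw [← e1] at e2
  exact hne (hc (ty x) x (mem_filter.2 ⟨hx, rfl⟩) y (mem_filter.2 ⟨hy, e1.symm⟩) f hx' hy' e2)

theorem core {Δ : ℕ} (hΔ : 1000000 ≤ Δ) (hab : ∀ x, a x ≠ b x) (hsec : ∀ f, (sec f).card ≤ 2)
    (hsize : ∀ f, (univ.filter fun x => Inc a b sec x f).card ≤ Δ)
    (hP : ∀ A : Finset O, ((A ×ˢ A).filter fun p =>
      p.1 ≠ p.2 ∧ ∃ f, p.1 ∈ sec f ∧ p.2 ∈ sec f).card ≤ 6 * A.card)
    (hZ : ∀ p q, (univ.filter fun x => (∃ f, x ∈ sec f) ∧ a x = p ∧ b x = q).card ≤ 2)
    (U : Finset O) : ∃ c : O → Fin (3 * Δ / 2), Good a b sec U c := by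
  induction U using Finset.strongInduction with
  | H U ih =>
    by_cases h : ∀ W : Finset F, W.card = 3 →
      2 * (U.filter fun x => (∀ f, x ∉ sec f) ∧ a x ∈ W ∧ b x ∈ W).card + 3 * Δ / 2 < 4 * Δ
    · exact base hΔ hab hsec hsize hP hZ U h
    · push Not at h
      obtain ⟨W, hW, h⟩ := h
      obtain ⟨c, hc⟩ := ih (U \ U.filter fun x => (∀ f, x ∉ sec f) ∧ a x ∈ W ∧ b x ∈ W)
        (sdiff_ssubset (filter_subset _ _) (card_pos.1 (by omega)))
      exact hall_step (by omega) hab hsize hW (fun x hx => (mem_filter.1 hx).2.1)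
        (fun x hx => (mem_filter.1 hx).2.2) h hc

end Pool.Agent.P.MP_e2f256_co
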