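import Mathlib

namespace Pool.Agent.P.MP_e2f256_co

variable {V : Type} {H : SimpleGraph V}

structure Rotation (H : SimpleGraph V) where
  next : Equiv.Perm H.Dart
  fst_next : ∀ d, (next d).fst = d.fst
  cyclic : ∀ d d' : H.Dart, d.fst = d'.fst → next.SameCycle d d'

def Rotation.walk (R : Rotation H) : Equiv.Perm H.Dart :=
  R.next.trans (Function.Involutive.toPerm _ SimpleGraph.Dart.symm_involutive)

def Rotation.Face (R : Rotation H) : Type := Quotient (Equiv.Perm.SameCycle.setoid R.walk)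

def Rotation.face (R : Rotation H) (d : H.Dart) : R.Face := Quotient.mk _ d

def Rotation.Plane (R : Rotation H) : Prop :=
  Nat.card V + Nat.card R.Face = Nat.card H.edgeSet + 2

def ThreeConnected (H : SimpleGraph V) : Prop :=
  4 ≤ Nat.card V ∧ ∀ X : Set V, X.ncard ≤ 2 → (H.induce Xᶜ).Connected

abbrev SubV (H : SimpleGraph V) (μ : H.edgeSet → ℕ) : Type := V ⊕ Σ e : H.edgeSet, Fin (μ e)

def Rotation.boundary (R : Rotation H) (μ : H.edgeSet → ℕ) (f : R.Face) : Set (SubV H μ) :=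
  {x | ∃ d, R.face d = f ∧
    (x = Sum.inl d.fst ∨ ∃ i, x = Sum.inr ⟨⟨d.edge, d.edge_mem⟩, i⟩)}

end Pool.Agent.P.MP_e2f256_co
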