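import Mathlib

namespace Pool.Agent.P.MP_e2f256_co

open Finset Function Matrix Module

variable {D W V F E : Type} [Fintype D]

def incM [DecidableEq W] (u v : D → W) : Matrix D W (ZMod 2) :=
  fun d w => (if u d = w then 1 else 0) + (if v d = w then 1 else 0)

omit [Fintype D] in
theorem incM_mulVec [Fintype W] [DecidableEq W] (u v : D → W) (y : W → ZMod 2) (d : D) :
    (incM u v *ᵥ y) d = y (u d) + y (v d) := by
  simp [incM, mulVec, dotProduct, add_mul, sum_add_distrib]

theorem z2_eq {x y : ZMod 2} : x + y = 0 ↔ x = y := by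
  revert x y; decide

omit [Fintype D] in
theorem rank_ge [Fintype W] [DecidableEq W] (u v : D → W)
    (h : ∀ y : W → ZMod 2, (∀ d, y (u d) = y (v d)) → ∀ w w', y w = y w') :
    Fintype.card W ≤ (incM u v).rank + 1 := by
  have h1 := LinearMap.finrank_range_add_finrank_ker (incM u v).mulVecLin
  have h2 : LinearMap.ker (incM u v).mulVecLin ≤ Submodule.span (ZMod 2) {fun _ => 1} := by
    intro y hy
    have h3 := h y fun d => z2_eq.1 (by rw [← incM_mulVec]; exact congrFun hy d)
    rcases isEmpty_or_nonempty W with hW | ⟨⟨w⟩⟩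
    · rw [Subsingleton.elim y 0]; exact Submodule.zero_mem _
    · exact Submodule.mem_span_singleton.2 ⟨y w, funext fun w' => by simp [h3 w w']⟩
  have h3 := Submodule.finrank_mono h2
  have h4 := finrank_span_le_card (R := ZMod 2) ({fun _ => 1} : Set (W → ZMod 2))
  simp only [Set.toFinset_singleton, card_singleton] at h4
  rw [finrank_fintype_fun_eq_card] at h1
  unfold Matrix.rank
  omega

def Cyc [DecidableEq V] [DecidableEq F] (u : D → V) (v : D → F) (z : D → ZMod 2) : Prop :=
  (∀ x, ∑ d, (if u d = x then z d else 0) = 0) ∧ ∀ f, ∑ d, (if v d = f then z d else 0) = 0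

theorem sphere [Fintype V] [Fintype F] [Fintype E] [DecidableEq V] [DecidableEq F] [DecidableEq E]
    (u : D → V) (v : D → F) (l r : D → E)
    (h0 : ∀ s : E → ZMod 2, Cyc u v fun d => s (l d) + s (r d))
    (h1 : ∀ y : V ⊕ F → ZMod 2, (∀ d, y (Sum.inl (u d)) = y (Sum.inr (v d))) → ∀ w w', y w = y w')
    (h2 : ∀ s : E → ZMod 2, (∀ d, s (l d) = s (r d)) → ∀ e e', s e = s e')
    (he : Fintype.card D + 2 ≤ Fintype.card V + Fintype.card F + Fintype.card E)
    (z : D → ZMod 2) (hz : Cyc u v z) : ∃ s : E → ZMod 2, ∀ d, z d = s (l d) + s (r d) := by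
  let M := incM (fun d => (Sum.inl (u d) : V ⊕ F)) (fun d => Sum.inr (v d))
  have hM : ∀ z, Cyc u v z → z ∈ LinearMap.ker Mᵀ.mulVecLin := by
    intro z hz
    refine funext fun w => ?_
    rcases w with x | f
    · simpa [M, incM, vecMul, dotProduct] using hz.1 x
    · simpa [M, incM, vecMul, dotProduct] using hz.2 f
  have a1 : LinearMap.range (incM l r).mulVecLin ≤ LinearMap.ker Mᵀ.mulVecLin := by
    rintro _ ⟨s, rfl⟩
    refine hM _ ?_
    have : (incM l r).mulVecLin s = fun d => s (l d) + s (r d) := funext (incM_mulVec l r s)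
    rw [this]
    exact h0 s
  have a2 := rank_ge _ _ h1
  have a3 := rank_ge _ _ h2
  have a4 := LinearMap.finrank_range_add_finrank_ker Mᵀ.mulVecLin
  have a5 : Mᵀ.rank = M.rank := rank_transpose M
  rw [finrank_fintype_fun_eq_card] at a4
  rw [Fintype.card_sum] at a2
  have a6 := Submodule.eq_of_le_of_finrank_le a1 (by
    unfold Matrix.rank at a2 a3 a5
    change _ ≤ finrank (ZMod 2) (LinearMap.range M.mulVecLin) + 1 at a2
    omega)
  have a7 := hM z hz
  rw [← a6] at a7
  obtain ⟨s, hs⟩ := a7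
  exact ⟨s, fun d => by rw [← hs]; exact incM_mulVec l r s d⟩

theorem other [DecidableEq V] {u : D → V} {z : D → ZMod 2}
    (h : ∀ x, ∑ d, (if u d = x then z d else 0) = 0) {d : D} (hd : z d ≠ 0) :
    ∃ d', d' ≠ d ∧ z d' ≠ 0 ∧ u d' = u d := by
  by_contra hc
  push Not at hc
  have := h (u d)
  rw [sum_eq_single d, if_pos rfl] at this
  · exact hd this
  · intro d' _ h1
    split_ifs with h2
    · by_contra h3
      exact hc d' h1 h3 h2
    · rfl
  · simp

theorem girth_dart [Fintype E] [DecidableEq D] [DecidableEq V] [DecidableEq F]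
    (u : D → V) (v : D → F) (l r : D → E)
    (h0 : ∀ s : E → ZMod 2, Cyc u v fun d => s (l d) + s (r d))
    (h1 : ∀ z, Cyc u v z → ∃ s : E → ZMod 2, ∀ d, z d = s (l d) + s (r d))
    (S : Finset D) (g : ℕ)
    (hg : ∀ z, Cyc u v z → z ≠ 0 → (∀ d ∉ S, z d = 0) → g ≤ (S.filter fun d => z d ≠ 0).card) :
    g * S.card ≤ 2 * S.card + g * ((S.image u).card + (S.image v).card) := by
  classical
  let ψ : (D → ZMod 2) →ₗ[ZMod 2] (S.image u → ZMod 2) × (S.image v → ZMod 2) ×
      ((Sᶜ : Finset D) → ZMod 2) :=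
    { toFun := fun z => (fun x => ∑ d, if u d = x then z d else 0,
        fun f => ∑ d, if v d = f then z d else 0, fun d => z d)
      map_add' := fun z z' => by
        refine Prod.ext (funext fun x => ?_) (Prod.ext (funext fun x => ?_) rfl) <;>
        · simp only [Prod.fst_add, Prod.snd_add, Pi.add_apply, ← sum_add_distrib]
          exact sum_congr rfl fun d _ => by split_ifs <;> simp
      map_smul' := fun c z => by
        refine Prod.ext (funext fun x => ?_) (Prod.ext (funext fun x => ?_) rfl) <;>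
        · simp [mul_sum] }
  have a1 := LinearMap.finrank_range_add_finrank_ker ψ
  have a2 := Submodule.finrank_le (LinearMap.range ψ)
  simp only [finrank_prod, finrank_fintype_fun_eq_card, Fintype.card_coe, card_compl] at a1 a2
  have a3 := card_le_univ S
  let cl : E → ({s : E → ZMod 2 // ∀ d ∉ S, s (l d) = s (r d)} → ZMod 2) := fun e s => s.1 e
  let bd : ({s : E → ZMod 2 // ∀ d ∉ S, s (l d) = s (r d)} → ZMod 2) → D → ZMod 2 :=
    fun R d => (if cl (l d) = R then 1 else 0) + (if cl (r d) = R then 1 else 0)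
  let G := (univ.image cl).filter fun R => bd R ≠ 0
  have b1 : LinearMap.ker ψ ≤ Submodule.span (ZMod 2) (G.image bd : Set (D → ZMod 2)) := by
    intro z hz
    have hz' : ψ z = 0 := hz
    have z0 : ∀ d ∉ S, z d = 0 := fun d hd =>
      congrFun (congrArg (fun p => p.2.2) hz') ⟨d, mem_compl.2 hd⟩
    have zc : Cyc u v z := by
      constructor
      · intro x
        by_cases hx : x ∈ S.image u
        · exact congrFun (congrArg (fun p => p.1) hz') ⟨x, hx⟩
        · refine sum_eq_zero fun d _ => ?_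
          split_ifs with h
          · exact z0 d fun hd => hx (mem_image.2 ⟨d, hd, h⟩)
          · rfl
      · intro x
        by_cases hx : x ∈ S.image v
        · exact congrFun (congrArg (fun p => p.2.1) hz') ⟨x, hx⟩
        · refine sum_eq_zero fun d _ => ?_
          split_ifs with h
          · exact z0 d fun hd => hx (mem_image.2 ⟨d, hd, h⟩)
          · rfl
    obtain ⟨s, hs⟩ := h1 z zc
    have hS : ∀ d ∉ S, s (l d) = s (r d) := fun d hd => z2_eq.1 ((hs d).symm.trans (z0 d hd))
    have : z = ∑ R ∈ univ.image cl, R ⟨s, hS⟩ • bd R := by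
      funext d
      rw [hs d, Finset.sum_apply]
      simp only [bd, Pi.smul_apply, smul_eq_mul, mul_add, sum_add_distrib, mul_ite, mul_one,
        mul_zero, sum_ite_eq, mem_image, mem_univ, true_and, exists_apply_eq_apply, if_true]
      rfl
    rw [this]
    refine Submodule.sum_mem _ fun R hR => Submodule.smul_mem _ _ ?_
    by_cases h : bd R = 0
    · rw [h]; exact Submodule.zero_mem _
    · exact Submodule.subset_span (mem_coe.2 (mem_image_of_mem _ (mem_filter.2 ⟨hR, h⟩)))
  have b2 := (Submodule.finrank_mono b1).trans (finrank_span_finset_le_card (R := ZMod 2) _)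
  have b3 : (G.image bd).card ≤ G.card := card_image_le
  have b4 : ∑ _R ∈ G, g ≤ ∑ R ∈ G, (S.filter fun d => bd R d ≠ 0).card := by
    refine sum_le_sum fun R hR => hg _ (h0 fun e => if cl e = R then 1 else 0)
      (mem_filter.1 hR).2 fun d hd => ?_
    have : cl (l d) = cl (r d) := funext fun s => s.2 d hd
    exact z2_eq.2 (by rw [this])
  have b5 : ∑ R ∈ G, (S.filter fun d => bd R d ≠ 0).card =
      ∑ d ∈ S, (G.filter fun R => bd R d ≠ 0).card := by
    simp only [card_filter]
    exact sum_comm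
  have b6 : ∑ d ∈ S, (G.filter fun R => bd R d ≠ 0).card ≤ ∑ _d ∈ S, 2 := by
    refine sum_le_sum fun d _ => le_trans (card_le_card ?_)
      (card_le_two (a := cl (l d)) (b := cl (r d)))
    intro R hR
    have := (mem_filter.1 hR).2
    by_contra hc
    simp only [mem_insert, mem_singleton, not_or] at hc
    exact this (by simp only [bd, if_neg (Ne.symm hc.1), if_neg (Ne.symm hc.2), add_zero])
  rw [sum_const, smul_eq_mul] at b4 b6
  have b7 : S.card ≤ G.card + ((S.image u).card + (S.image v).card) := by omega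
  have := Nat.mul_le_mul_left g b7
  nlinarith

def Girth [DecidableEq V] [DecidableEq F] (I : Finset (V × F)) : Prop :=
  ∀ S ⊆ I, ∀ g : ℕ, (∀ T ⊆ S, T.Nonempty → (∀ p ∈ T, ∃ q ∈ T, q ≠ p ∧ q.1 = p.1) →
    (∀ p ∈ T, ∃ q ∈ T, q ≠ p ∧ q.2 = p.2) → g ≤ T.card) →
    g * S.card ≤ 2 * S.card + g * ((S.image Prod.fst).card + (S.image Prod.snd).card)

theorem girth [Fintype E] [DecidableEq D] [DecidableEq V] [DecidableEq F]
    (u : D → V) (v : D → F) (l r : D → E)
    (h0 : ∀ s : E → ZMod 2, Cyc u v fun d => s (l d) + s (r d))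
    (h1 : ∀ z, Cyc u v z → ∃ s : E → ZMod 2, ∀ d, z d = s (l d) + s (r d)) :
    Girth (univ.image fun d => (u d, v d)) := by
  intro S hS g hg
  obtain ⟨S', -, hinj, rfl⟩ := exists_subset_injOn_image_eq_of_surjOn
    (f := fun d => (u d, v d)) (Set.univ : Set D) S fun p hp => by
      obtain ⟨d, -, hd⟩ := mem_image.1 (hS hp)
      exact ⟨d, Set.mem_univ _, hd⟩
  have := girth_dart u v l r h0 h1 S' g fun z hz hz0 hzS => by
    have hm : ∀ d, z d ≠ 0 → d ∈ S'.filter fun d => z d ≠ 0 := fun d hd =>
      mem_filter.2 ⟨by_contra fun h => hd (hzS d h), hd⟩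
    refine le_trans (hg ((S'.filter fun d => z d ≠ 0).image fun d => (u d, v d))
      (image_subset_image (filter_subset _ _)) ?_ ?_ ?_) card_image_le
    · obtain ⟨d, hd⟩ := Function.ne_iff.1 hz0
      exact ⟨_, mem_image_of_mem _ (hm d hd)⟩
    · intro p hp
      obtain ⟨d, hd, rfl⟩ := mem_image.1 hp
      obtain ⟨d', h1, h2, h3⟩ := other hz.1 (mem_filter.1 hd).2
      exact ⟨_, mem_image_of_mem _ (hm d' h2), fun e => h1 (hinj (mem_filter.1 (hm d' h2)).1
        (mem_filter.1 hd).1 e), h3⟩
    · intro p hp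
      obtain ⟨d, hd, rfl⟩ := mem_image.1 hp
      obtain ⟨d', h1, h2, h3⟩ := other hz.2 (mem_filter.1 hd).2
      exact ⟨_, mem_image_of_mem _ (hm d' h2), fun e => h1 (hinj (mem_filter.1 (hm d' h2)).1
        (mem_filter.1 hd).1 e), h3⟩
  rw [card_image_of_injOn hinj, image_image, image_image]
  exact this

end Pool.Agent.P.MP_e2f256_co
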