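import Pool.Agent.P.MP_e2f256_co.Core
import Pool.Agent.P.MP_e2f256_co.Lin

namespace Pool.Agent.P.MP_e2f256_co

open Finset Function

variable {O F : Type} [DecidableEq O] [DecidableEq F]

omit [DecidableEq O] in
theorem two_ends (x : O) (s : Finset F) (hs : s.card ≤ 2) :
    ∃ p q : F ⊕ O × Bool, p ≠ q ∧ (∀ f, p = Sum.inl f ∨ q = Sum.inl f ↔ f ∈ s) ∧
      ∀ y, p = Sum.inr y ∨ q = Sum.inr y → y.1 = x := by
  rcases hs.eq_or_lt with h | h
  · obtain ⟨f, g, h1, rfl⟩ := card_eq_two.1 h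
    exact ⟨Sum.inl f, Sum.inl g, by simpa using h1, by simp [eq_comm], by simp⟩
  · rcases (Nat.lt_succ_iff.1 h).eq_or_lt with h | h
    · obtain ⟨f, rfl⟩ := card_eq_one.1 h
      exact ⟨Sum.inl f, Sum.inr (x, true), by simp, by simp [eq_comm], by simp⟩
    · obtain rfl := card_eq_zero.1 (Nat.lt_one_iff.1 h)
      exact ⟨Sum.inr (x, false), Sum.inr (x, true), by simp, by simp, by
        rintro y (h | h) <;> cases h <;> rfl⟩

theorem core' [Fintype O] [Fintype F] {prim : O → Finset F} {sec : F → Finset O} {Δ : ℕ}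
    (hΔ : 1000000 ≤ Δ) (hprim : ∀ x, (prim x).card ≤ 2) (hsec : ∀ f, (sec f).card ≤ 2)
    (hsize : ∀ f, (univ.filter fun x => f ∈ prim x ∨ x ∈ sec f).card ≤ Δ)
    (hP : ∀ A : Finset O, ((A ×ˢ A).filter fun p =>
      p.1 ≠ p.2 ∧ ∃ f, p.1 ∈ sec f ∧ p.2 ∈ sec f).card ≤ 6 * A.card)
    (hZ : ∀ p q, p ≠ q →
      (univ.filter fun x => (∃ f, x ∈ sec f) ∧ p ∈ prim x ∧ q ∈ prim x).card ≤ 2) :
    ∃ c : O → Fin (3 * Δ / 2), ∀ f x y, (f ∈ prim x ∨ x ∈ sec f) → (f ∈ prim y ∨ y ∈ sec f) →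
      c x = c y → x = y := by
  choose a b hab h1 h2 using fun x => two_ends x (prim x) (hprim x)
  let sec' : F ⊕ O × Bool → Finset O := Sum.elim sec fun _ => ∅
  have hinc : ∀ x f, Inc a b sec' x (Sum.inl f) ↔ f ∈ prim x ∨ x ∈ sec f := by
    intro x f
    rw [← h1, or_assoc]
    rfl
  have hex : ∀ x y, (∃ f, x ∈ sec' f ∧ y ∈ sec' f) → ∃ f, x ∈ sec f ∧ y ∈ sec f := by
    rintro x y ⟨f | f, h⟩
    · exact ⟨f, h⟩
    · exact absurd h.1 (notMem_empty _)
  have hone : ∀ (y : O) (S : Finset O), (∀ x ∈ S, y = x) → S.card ≤ 1 := fun y S h =>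
    card_le_one.2 fun x hx z hz => (h x hx).symm.trans (h z hz)
  obtain ⟨c, hc⟩ := core (a := a) (b := b) (sec := sec') hΔ hab (by
      rintro (f | f)
      · exact hsec f
      · exact Nat.zero_le _) (by
      rintro (f | y)
      · simp only [hinc]
        exact hsize f
      · refine le_trans (hone y.1 _ fun x hx => ?_) (by omega)
        rcases (mem_filter.1 hx).2 with h | h | h
        · exact h2 x y (Or.inl h)
        · exact h2 x y (Or.inr h)
        · exact absurd h (notMem_empty _))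
    (fun A => le_trans (card_le_card (monotone_filter_right _ fun p _ hp =>
      ⟨hp.1, hex _ _ hp.2⟩)) (hP A)) (by
      rintro (p | y) q
      · rcases q with q | y
        · by_cases h : p = q
          · subst h
            rw [filter_eq_empty_iff.2 fun x _ hx => hab x (hx.2.1.trans hx.2.2.symm)]
            exact Nat.zero_le _
          · refine le_trans (card_le_card (monotone_filter_right _ fun x _ hx => ?_)) (hZ p q h)
            obtain ⟨⟨f, hf⟩, h3, h4⟩ := hx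
            obtain ⟨f, hf, -⟩ := hex x x ⟨f, hf, hf⟩
            exact ⟨⟨f, hf⟩, (h1 x p).1 (Or.inl h3), (h1 x q).1 (Or.inr h4)⟩
        · exact le_trans (hone y.1 _ fun x hx => h2 x y (Or.inr (mem_filter.1 hx).2.2.2)) (by omega)
      · exact le_trans (hone y.1 _ fun x hx => h2 x y (Or.inl (mem_filter.1 hx).2.2.1)) (by omega))
    univ
  exact ⟨c, fun f x y hx hy => hc (Sum.inl f) x (mem_univ _) y (mem_univ _) ((hinc _ _).2 hx)
    ((hinc _ _).2 hy)⟩

theorem Girth.four {I : Finset (O × F)} (hG : Girth I) (S : Finset (O × F)) (hS : S ⊆ I) :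
    S.card ≤ 2 * (S.image Prod.fst).card + 2 * (S.image Prod.snd).card := by
  have := hG S hS 4 (by
    rintro T - ⟨⟨x, f⟩, hp⟩ h1 h2
    obtain ⟨⟨x', g⟩, hq, q1, rfl⟩ := h1 _ hp
    obtain ⟨⟨y, f'⟩, hp', p1, rfl⟩ := h2 _ hp
    obtain ⟨⟨z, g'⟩, hq', q2, rfl⟩ := h2 _ hq
    have a1 : g' ≠ f' := by simpa using q1
    have a2 : y ≠ x' := by simpa using p1
    have a3 : z ≠ x' := by simpa using q2
    have : ({(x', f'), (x', g'), (y, f'), (z, g')} : Finset (O × F)).card = 4 := by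
      rw [card_insert_of_notMem, card_insert_of_notMem, card_insert_of_notMem, card_singleton] <;>
        simp [a1, a1.symm, a2.symm, a3.symm]
    rw [← this]
    exact card_le_card (by simp [insert_subset_iff, *]))
  omega

theorem Girth.split {I : Finset (O × F)} (hG : Girth I) :
    ∃ I₁ ⊆ I, ∃ I₂ ⊆ I, I ⊆ I₁ ∪ I₂ ∧ (∀ x, (I₁.filter fun p => p.1 = x).card ≤ 2) ∧
      ∀ f, (I₂.filter fun p => p.2 = f).card ≤ 2 := by
  obtain ⟨φ, hφ, hφ'⟩ := (all_card_le_biUnion_card_iff_exists_injective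
    (fun i : {i // i ∈ I} => (({i.1.1} : Finset O) ×ˢ (univ : Finset Bool)).disjSum
      (({i.1.2} : Finset F) ×ˢ (univ : Finset Bool)))).1 (by
    intro S
    have h1 := hG.four (S.image Subtype.val) fun p hp => by
      obtain ⟨i, -, rfl⟩ := mem_image.1 hp
      exact i.2
    rw [card_image_of_injective _ Subtype.val_injective] at h1
    refine le_trans ?_ (card_le_card (s := (((S.image Subtype.val).image Prod.fst) ×ˢ
      (univ : Finset Bool)).disjSum (((S.image Subtype.val).image Prod.snd) ×ˢ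
      (univ : Finset Bool))) ?_)
    · rw [card_disjSum, card_product, card_product, card_univ, Fintype.card_bool]
      omega
    · rintro (⟨x, β⟩ | ⟨f, β⟩) h
      · obtain ⟨p, hp, rfl⟩ := mem_image.1 (mem_product.1 (inl_mem_disjSum.1 h)).1
        obtain ⟨i, hi, rfl⟩ := mem_image.1 hp
        exact mem_biUnion.2 ⟨i, hi, by simp⟩
      · obtain ⟨p, hp, rfl⟩ := mem_image.1 (mem_product.1 (inr_mem_disjSum.1 h)).1
        obtain ⟨i, hi, rfl⟩ := mem_image.1 hp
        exact mem_biUnion.2 ⟨i, hi, by simp⟩)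
  let ψ : O × F → O × Bool ⊕ F × Bool := fun i =>
    if h : i ∈ I then φ ⟨i, h⟩ else Sum.inl (i.1, false)
  have h1 : Set.InjOn ψ I := fun i hi j hj e => by
    simp only [ψ, dif_pos (mem_coe.1 hi), dif_pos (mem_coe.1 hj)] at e
    exact congrArg Subtype.val (hφ e)
  have h2 : ∀ i ∈ I, ψ i ∈ (({i.1} : Finset O) ×ˢ (univ : Finset Bool)).disjSum
      (({i.2} : Finset F) ×ˢ (univ : Finset Bool)) := fun i hi => by
    simp only [ψ, dif_pos hi]
    exact hφ' ⟨i, hi⟩
  refine ⟨I.filter fun i => (ψ i).isLeft, filter_subset _ _, I.filter fun i => (ψ i).isRight,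
    filter_subset _ _, fun i hi => ?_, fun x => ?_, fun f => ?_⟩
  · rcases h : ψ i with y | y
    · exact mem_union_left _ (mem_filter.2 ⟨hi, by simp [h]⟩)
    · exact mem_union_right _ (mem_filter.2 ⟨hi, by simp [h]⟩)
  · refine le_trans (card_le_card_of_injOn ψ (fun i hi => ?_) (h1.mono fun i hi =>
      (mem_filter.1 (mem_filter.1 hi).1).1)) (card_le_two (a := Sum.inl (x, false))
      (b := Sum.inl (x, true)))
    obtain ⟨hi1, rfl⟩ := mem_filter.1 hi
    obtain ⟨hi2, h3⟩ := mem_filter.1 hi1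
    have h4 := h2 i hi2
    rcases h : ψ i with ⟨y, β⟩ | y <;> rw [h] at h3 h4
    · cases β <;> simp_all
    · simp at h3
  · refine le_trans (card_le_card_of_injOn ψ (fun i hi => ?_) (h1.mono fun i hi =>
      (mem_filter.1 (mem_filter.1 hi).1).1)) (card_le_two (a := Sum.inr (f, false))
      (b := Sum.inr (f, true)))
    obtain ⟨hi1, rfl⟩ := mem_filter.1 hi
    obtain ⟨hi2, h3⟩ := mem_filter.1 hi1
    have h4 := h2 i hi2
    rcases h : ψ i with y | ⟨y, β⟩ <;> rw [h] at h3 h4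
    · simp at h3
    · cases β <;> simp_all

theorem Girth.six [Fintype F] {I : Finset (O × F)} (hG : Girth I) {sec : F → Finset O}
    (hsec : ∀ f, (sec f).card ≤ 2) (hI : ∀ f, ∀ x ∈ sec f, (x, f) ∈ I) (A : Finset O) :
    ((A ×ˢ A).filter fun p => p.1 ≠ p.2 ∧ ∃ f, p.1 ∈ sec f ∧ p.2 ∈ sec f).card ≤ 6 * A.card := by
  have hpair : ∀ f x y, x ≠ y → x ∈ sec f → y ∈ sec f → sec f = {x, y} := fun f x y h hx hy =>
    (eq_of_subset_of_card_le (by simp [insert_subset_iff, hx, hy])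
      (by rw [card_pair h]; exact hsec f)).symm
  obtain ⟨B, hB, hinj, himg⟩ := exists_subset_injOn_image_eq_of_surjOn (f := sec)
    {f | (sec f).card = 2 ∧ sec f ⊆ A}
    ((univ.filter fun f => (sec f).card = 2 ∧ sec f ⊆ A).image sec) fun s hs => by
      obtain ⟨f, hf, rfl⟩ := mem_image.1 hs
      exact ⟨f, (mem_filter.1 hf).2, rfl⟩
  have h1 : ((A ×ˢ A).filter fun p => p.1 ≠ p.2 ∧ ∃ f, p.1 ∈ sec f ∧ p.2 ∈ sec f) ⊆
      B.biUnion fun f => (sec f).offDiag := by
    rintro ⟨x, y⟩ hp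
    obtain ⟨hm, h1, f, h2, h3⟩ := mem_filter.1 hp
    have h4 := hpair f x y h1 h2 h3
    have h5 : sec f ∈ B.image sec := by
      rw [himg]
      refine mem_image_of_mem _ (mem_filter.2 ⟨mem_univ _, ?_, ?_⟩)
      · rw [h4, card_pair h1]
      · rw [h4]
        simpa [insert_subset_iff] using mem_product.1 hm
    obtain ⟨g, hg, e⟩ := mem_image.1 h5
    exact mem_biUnion.2 ⟨g, hg, mem_offDiag.2 ⟨e ▸ h2, e ▸ h3, h1⟩⟩
  have h2 := (card_le_card h1).trans (card_biUnion_le_card_mul _ _ 2 fun f hf => by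
    rw [offDiag_card, (hB hf).1])
  let S : Finset (O × F) := B.biUnion fun f => (sec f).image fun x => (x, f)
  have hS : ∀ p ∈ S, p.2 ∈ B ∧ p.1 ∈ sec p.2 := by
    intro p hp
    obtain ⟨f, hf, hp⟩ := mem_biUnion.1 hp
    obtain ⟨x, hx, rfl⟩ := mem_image.1 hp
    exact ⟨hf, hx⟩
  have h3 : S.card = 2 * B.card := by
    rw [card_biUnion, mul_comm, ← smul_eq_mul, ← sum_const]
    · exact sum_congr rfl fun f hf => by
        rw [card_image_of_injective _ (Prod.mk_left_injective f), (hB hf).1]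
    · intro f _ g _ hfg
      refine disjoint_left.2 fun p h1 h2 => hfg ?_
      obtain ⟨x, -, rfl⟩ := mem_image.1 h1
      obtain ⟨y, -, e⟩ := mem_image.1 h2
      exact (congrArg Prod.snd e).symm
  have h4 : (S.image Prod.fst).card ≤ A.card := card_le_card fun x hx => by
    obtain ⟨p, hp, rfl⟩ := mem_image.1 hx
    exact (hB (hS p hp).1).2 (hS p hp).2
  have h5 : (S.image Prod.snd).card ≤ B.card := card_le_card fun x hx => by
    obtain ⟨p, hp, rfl⟩ := mem_image.1 hx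
    exact (hS p hp).1
  have h6 := hG S (fun p hp => hI _ _ (hS p hp).2) 6 (by
    rintro T hT ⟨⟨x, f⟩, hp⟩ h1 h2
    obtain ⟨⟨y, f'⟩, hq, q1, rfl⟩ := h2 _ hp
    obtain ⟨⟨x', g⟩, hp', p1, rfl⟩ := h1 _ hp
    obtain ⟨⟨y', k⟩, hq', q2, rfl⟩ := h1 _ hq
    obtain ⟨⟨z, g'⟩, hp'', p2, rfl⟩ := h2 _ hp'
    obtain ⟨⟨w, k'⟩, hq'', q3, rfl⟩ := h2 _ hq'
    have a1 : y' ≠ x' := by simpa using q1
    have a2 : g' ≠ f' := by simpa using p1
    have a3 : k' ≠ f' := by simpa using q2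
    have a4 : z ≠ x' := by simpa using p2
    have a5 : w ≠ y' := by simpa using q3
    have a6 : g' ≠ k' := by
      rintro rfl
      exact a2 (hinj (hS _ (hT hp')).1 (hS _ (hT hp)).1
        ((hpair _ _ _ a1 (hS _ (hT hq')).2 (hS _ (hT hp')).2).trans
          (hpair _ _ _ a1 (hS _ (hT hq)).2 (hS _ (hT hp)).2).symm))
    have : ({(x', f'), (y', f'), (x', g'), (z, g'), (y', k'), (w, k')} : Finset (O × F)).card = 6 := by
      rw [card_insert_of_notMem, card_insert_of_notMem, card_insert_of_notMem,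
        card_insert_of_notMem, card_insert_of_notMem, card_singleton] <;>
        simp [a1, a6, a1.symm, a2.symm, a3.symm, a4.symm, a5.symm]
    rw [← this]
    exact card_le_card (by simp [insert_subset_iff, *]))
  omega

theorem hyper [Fintype O] [Fintype F] {I : Finset (O × F)} {ex : O → Finset F} {Δ : ℕ}
    (hΔ : 1000000 ≤ Δ) (hex : ∀ x, (ex x).card ≤ 2) (hex' : ∀ p ∈ I, ex p.1 = ∅)
    (hsize : ∀ f, (univ.filter fun x => (x, f) ∈ I ∨ f ∈ ex x).card ≤ Δ) (hG : Girth I)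
    (h3 : ∀ f g, f ≠ g → (univ.filter fun x => (x, f) ∈ I ∧ (x, g) ∈ I).card ≤ 2) :
    ∃ c : O → Fin (3 * Δ / 2), ∀ f x y, ((x, f) ∈ I ∨ f ∈ ex x) → ((y, f) ∈ I ∨ f ∈ ex y) →
      c x = c y → x = y := by
  obtain ⟨I₁, s1, I₂, s2, s3, c1, c2⟩ := hG.split
  let prim : O → Finset F := fun x => (I₁.filter fun p => p.1 = x).image Prod.snd ∪ ex x
  let sec : F → Finset O := fun f => (I₂.filter fun p => p.2 = f).image Prod.fst
  have m1 : ∀ x f, f ∈ prim x ↔ (x, f) ∈ I₁ ∨ f ∈ ex x := by simp [prim]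
  have m2 : ∀ x f, x ∈ sec f ↔ (x, f) ∈ I₂ := by simp [sec]
  have m3 : ∀ x f, (f ∈ prim x ∨ x ∈ sec f) ↔ (x, f) ∈ I ∨ f ∈ ex x := by
    intro x f
    rw [m1, m2]
    have := @s1 (x, f)
    have := @s2 (x, f)
    have := fun h => mem_union.1 (@s3 (x, f) h)
    tauto
  have hsec : ∀ f, (sec f).card ≤ 2 := fun f => card_image_le.trans (c2 f)
  obtain ⟨c, hc⟩ := core' (prim := prim) (sec := sec) hΔ (fun x => by
      rcases (I₁.filter fun p => p.1 = x).eq_empty_or_nonempty with h | ⟨p, hp⟩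
      · simpa [prim, h] using hex x
      · obtain ⟨hp1, rfl⟩ := mem_filter.1 hp
        simp only [prim, hex' p (s1 hp1), union_empty]
        exact card_image_le.trans (c1 _)) hsec
    (fun f => by simp only [m3]; exact hsize f)
    (hG.six hsec fun f x hx => s2 ((m2 _ _).1 hx)) (fun p q hpq => by
      refine le_trans (card_le_card (monotone_filter_right _ fun x _ hx => ?_)) (h3 p q hpq)
      obtain ⟨⟨f, hf⟩, h1, h2⟩ := hx
      have := hex' _ (s2 ((m2 _ _).1 hf))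
      rw [m1, this] at h1 h2
      exact ⟨s1 (by simpa using h1), s1 (by simpa using h2)⟩)
  exact ⟨c, fun f x y hx hy => hc f x y ((m3 _ _).2 hx) ((m3 _ _).2 hy)⟩

end Pool.Agent.P.MP_e2f256_co
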