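import Pool.Agent.P.MP_e2f256_co.Hyper
import Pool.Agent.P.MP_e2f256_co.Defs

namespace Pool.Agent.P.MP_e2f256_co

open Finset Function

theorem sum_perm {D X : Type} [Fintype D] [DecidableEq X] (π : Equiv.Perm D) (w : D → X)
    (hw : ∀ d, w (π d) = w d) (t : D → ZMod 2) (x : X) :
    ∑ d, (if w d = x then t d + t (π d) else 0) = 0 := by
  have h1 : ∑ d, (if w d = x then t (π d) else 0) = ∑ d, (if w d = x then t d else 0) := by
    rw [← Equiv.sum_comp π fun d => if w d = x then t d else 0]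
    simp only [hw]
  calc _ = ∑ d, (if w d = x then t d else 0) + ∑ d, (if w d = x then t (π d) else 0) := by
        rw [← sum_add_distrib]
        exact sum_congr rfl fun d _ => by split_ifs <;> simp
    _ = 0 := z2_eq.2 h1.symm

variable {V : Type} {H : SimpleGraph V} (R : Rotation H)

def edg (d : H.Dart) : H.edgeSet := ⟨d.edge, d.edge_mem⟩

theorem edg_symm (d : H.Dart) : edg d.symm = edg d := Subtype.ext d.edge_symm

theorem Rotation.walk_apply (d : H.Dart) : R.walk d = (R.next d).symm := rfl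

theorem Rotation.face_walk (d : H.Dart) : R.face (R.walk d) = R.face d :=
  Quotient.sound (Equiv.Perm.SameCycle.rfl.apply_left)

theorem Rotation.around [Finite V] {P : H.Dart → Prop} {d d' : H.Dart} (h : d.fst = d'.fst)
    (h0 : P d) (h1 : ∀ e, e.fst = d.fst → P e → P (R.next e)) : P d' := by
  classical
  have := Fintype.ofFinite V
  obtain ⟨n, rfl⟩ := (R.cyclic d d' h).exists_nat_pow_eq
  have : ∀ n : ℕ, ((R.next ^ n) d).fst = d.fst ∧ P ((R.next ^ n) d) := by
    intro n
    induction n with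
    | zero => exact ⟨rfl, h0⟩
    | succ n ih =>
      rw [pow_succ', Equiv.Perm.mul_apply]
      exact ⟨(R.fst_next _).trans ih.1, h1 _ ih.1 ih.2⟩
  exact (this n).2

theorem conn_ind {X : Set V} (hX : (H.induce Xᶜ).Connected) {P : V → Prop} {x y : V} (hx : x ∉ X)
    (hy : y ∉ X) (h0 : P x) (h1 : ∀ d : H.Dart, d.fst ∉ X → d.snd ∉ X → P d.fst → P d.snd) :
    P y := by
  have h := (SimpleGraph.reachable_iff_reflTransGen _ _).1 (hX.preconnected ⟨x, hx⟩ ⟨y, hy⟩)
  have : ∀ z : (Xᶜ : Set V), Relation.ReflTransGen (H.induce Xᶜ).Adj ⟨x, hx⟩ z → P z.1 := by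
    intro z hz
    induction hz with
    | refl => exact h0
    | @tail a b _ hab ih => exact h1 ⟨(a.1, b.1), hab⟩ a.2 b.2 ih
  exact this _ h

theorem Rotation.const [Finite V] {X : Set V} (hX : (H.induce Xᶜ).Connected)
    {s : H.edgeSet → ZMod 2} (hs : ∀ d : H.Dart, d.fst ∉ X → s (edg d) = s (edg (R.next d)))
    {d d' : H.Dart} (hd : d.fst ∉ X) (hd' : d'.fst ∉ X) : s (edg d') = s (edg d) := by
  have h1 : ∀ e e' : H.Dart, e.fst ∉ X → e.fst = e'.fst → s (edg e') = s (edg e) :=
    fun e e' he h => R.around (P := fun k => s (edg k) = s (edg e)) h rfl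
      fun k hk h2 => (hs k (hk ▸ he)).symm.trans h2
  refine conn_ind hX (P := fun x => ∀ e : H.Dart, e.fst = x → s (edg e) = s (edg d)) hd hd'
    (fun e he => h1 d e hd he.symm) (fun e _ h3 h4 k hk => ?_) d' rfl
  rw [h1 e.symm k h3 hk.symm, edg_symm, h4 e rfl]

section

variable [Fintype V] [DecidableEq V] [DecidableRel H.Adj] [DecidableEq R.Face]

theorem Rotation.cyc0 (s : H.edgeSet → ZMod 2) :
    Cyc (fun d : H.Dart => d.fst) R.face fun d => s (edg d) + s (edg (R.next d)) :=
  ⟨sum_perm R.next _ R.fst_next fun d => s (edg d), fun f => by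
    have := sum_perm R.walk _ R.face_walk (fun d => s (edg d)) f
    simpa only [R.walk_apply, edg_symm] using this⟩

theorem Rotation.fill (hp : R.Plane) (h3 : ThreeConnected H) (z : H.Dart → ZMod 2)
    (hz : Cyc (fun d : H.Dart => d.fst) R.face z) :
    ∃ s : H.edgeSet → ZMod 2, ∀ d, z d = s (edg d) + s (edg (R.next d)) := by
  have : Finite R.Face := Quotient.finite _
  have := Fintype.ofFinite R.Face
  have hc := h3.2 ∅ (by simp)
  refine sphere _ _ edg (fun d => edg (R.next d)) R.cyc0 (fun y hy => ?_) (fun s hs e e' => ?_) ?_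
    z hz
  · have h1 : ∀ x x', y (Sum.inl x') = y (Sum.inl x) := fun x x' =>
      conn_ind hc (P := fun w => y (Sum.inl w) = y (Sum.inl x)) (Set.notMem_empty x)
        (Set.notMem_empty x') rfl fun d _ _ h => by
          have h2 := hy (R.walk (R.next.symm d))
          have h3 := hy (R.next.symm d)
          rw [R.face_walk, R.walk_apply, Equiv.apply_symm_apply] at h2
          rw [← R.fst_next, Equiv.apply_symm_apply] at h3
          exact (h2.trans h3.symm).trans h
    have h2 : ∀ w, ∃ x, y w = y (Sum.inl x) := by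
      rintro (x | f)
      · exact ⟨x, rfl⟩
      · induction f using Quotient.ind with
        | _ d => exact ⟨d.fst, (hy d).symm⟩
    intro w w'
    obtain ⟨x, hx⟩ := h2 w
    obtain ⟨x', hx'⟩ := h2 w'
    rw [hx, hx', h1]
  · have h1 : ∀ e : H.edgeSet, ∃ d, edg d = e := by
      rintro ⟨e, he⟩
      induction e using Sym2.ind with
      | _ a b => exact ⟨⟨(a, b), he⟩, rfl⟩
    obtain ⟨d, rfl⟩ := h1 e
    obtain ⟨d', rfl⟩ := h1 e'
    exact R.const hc (fun d _ => hs d) (Set.notMem_empty _) (Set.notMem_empty _)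
  · have h1 := H.dart_card_eq_twice_card_edges
    unfold Rotation.Plane at hp
    simp only [Nat.card_eq_fintype_card] at hp
    rw [SimpleGraph.edgeFinset_card] at h1
    omega

theorem Rotation.corner (hp : R.Plane) (h3 : ThreeConnected H) {d₁ d₂ d₃ d₄ : H.Dart}
    (h12 : d₁.fst = d₂.fst) (h34 : d₃.fst = d₄.fst) (h13 : R.face d₁ = R.face d₃)
    (h24 : R.face d₂ = R.face d₄) (hv : d₁.fst ≠ d₃.fst) (hf : R.face d₁ ≠ R.face d₂) :
    d₁.snd = d₃.fst ∨ (R.next d₁).snd = d₃.fst := by
  have key : ∀ {X : Type} [DecidableEq X] (w : H.Dart → X) (x : X),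
      ∑ d, (if w d = x then ((if d = d₁ then 1 else 0) + (if d = d₂ then 1 else 0) +
        (if d = d₃ then 1 else 0) + (if d = d₄ then 1 else 0) : ZMod 2) else 0) =
        (if w d₁ = x then 1 else 0) + (if w d₂ = x then 1 else 0) + (if w d₃ = x then 1 else 0) +
          (if w d₄ = x then 1 else 0) := by
    intro X _ w x
    have : ∀ k : H.Dart, ∑ d, (if w d = x then (if d = k then 1 else 0 : ZMod 2) else 0) =
        if w k = x then 1 else 0 := fun k => by
      rw [sum_eq_single k] <;> simp +contextual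
    rw [← this d₁, ← this d₂, ← this d₃, ← this d₄, ← sum_add_distrib, ← sum_add_distrib,
      ← sum_add_distrib]
    exact sum_congr rfl fun d _ => by split_ifs <;> simp
  obtain ⟨s, hs⟩ := R.fill hp h3 (fun d => (if d = d₁ then 1 else 0) + (if d = d₂ then 1 else 0) +
    (if d = d₃ then 1 else 0) + (if d = d₄ then 1 else 0)) ⟨fun x => by
      rw [key, ← h12, ← h34]
      split_ifs <;> decide, fun f => by
      rw [key, ← h13, ← h24]
      split_ifs <;> decide⟩
  have hX := h3.2 {d₁.fst, d₃.fst} (Set.ncard_pair hv).le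
  by_contra hc
  push Not at hc
  have h1 := R.const hX (s := s) (fun d hd => by
    have a1 : d ≠ d₁ := fun h => hd (by simp [h])
    have a2 : d ≠ d₂ := fun h => hd (by simp [h, h12])
    have a3 : d ≠ d₃ := fun h => hd (by simp [h])
    have a4 : d ≠ d₄ := fun h => hd (by simp [h, h34])
    have := hs d
    simp only [a1, a2, a3, a4, if_false, add_zero] at this
    exact z2_eq.1 this.symm) (d := d₁.symm) (d' := (R.next d₁).symm)
    (by simp [hc.1]) (by
      have := (R.next d₁).snd_ne_fst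
      rw [R.fst_next] at this
      simp [hc.2, this])
  rw [edg_symm, edg_symm] at h1
  have a2 : d₁ ≠ d₂ := fun h => hf (by rw [h])
  have a3 : d₁ ≠ d₃ := fun h => hv (by rw [h])
  have a4 : d₁ ≠ d₄ := fun h => hv (by rw [h, h34])
  have := hs d₁
  simp only [a2, a3, a4, if_false, add_zero, if_true, z2_eq.2 h1.symm] at this
  exact absurd this (by decide)

theorem Rotation.three (hp : R.Plane) (h3 : ThreeConnected H) {d₁ d₂ d₃ d₄ d₅ d₆ : H.Dart}
    (h12 : d₁.fst = d₂.fst) (h34 : d₃.fst = d₄.fst) (h56 : d₅.fst = d₆.fst)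
    (h13 : R.face d₁ = R.face d₃) (h15 : R.face d₁ = R.face d₅) (h24 : R.face d₂ = R.face d₄)
    (h26 : R.face d₂ = R.face d₆) (v13 : d₁.fst ≠ d₃.fst) (v15 : d₁.fst ≠ d₅.fst)
    (v35 : d₃.fst ≠ d₅.fst) (hf : R.face d₁ ≠ R.face d₂) : False := by
  have a1 := R.corner hp h3 h12 h34 h13 h24 v13 hf
  have a2 := R.corner hp h3 h12 h56 h15 h26 v15 hf
  have a3 := R.corner hp h3 h12.symm h34.symm h24 h13 (h12 ▸ h34 ▸ v13) hf.symm
  have a4 := R.corner hp h3 h12.symm h56.symm h26 h15 (h12 ▸ h56 ▸ v15) hf.symm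
  rw [← h34] at a3
  rw [← h56] at a4
  have a5 : d₁.snd ≠ d₂.snd := fun h =>
    hf (by rw [SimpleGraph.Dart.ext d₁ d₂ (Prod.ext h12 h)])
  have b1 : R.next d₁ = d₂ :=
    SimpleGraph.Dart.ext _ _ (Prod.ext ((R.fst_next _).trans h12) (by grind))
  have b2 : R.next d₂ = d₁ :=
    SimpleGraph.Dart.ext _ _ (Prod.ext ((R.fst_next _).trans h12.symm) (by grind))
  have b3 : ∀ d : H.Dart, d.fst = d₁.fst → d = d₁ ∨ d = d₂ := fun d hd =>
    R.around (P := fun k => k = d₁ ∨ k = d₂) hd.symm (Or.inl rfl) (by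
      rintro e - (rfl | rfl)
      · exact Or.inr b1
      · exact Or.inl b2)
  obtain ⟨t, -, ht⟩ := exists_mem_notMem_of_card_lt_card
    (s := ({d₁.fst, d₃.fst, d₅.fst} : Finset V)) (t := univ) (by
      have := h3.1
      rw [Nat.card_eq_fintype_card] at this
      have := card_le_three (a := d₁.fst) (b := d₃.fst) (c := d₅.fst)
      rw [card_univ]
      omega)
  simp only [mem_insert, mem_singleton, not_or] at ht
  refine ht.1 (conn_ind (h3.2 {d₃.fst, d₅.fst} (Set.ncard_pair v35).le)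
    (P := fun x => x = d₁.fst) (x := d₁.fst) (by simp [v13, v15]) (by simp [ht.2]) rfl ?_)
  intro d _ h1 h2
  simp only [Set.mem_insert_iff, Set.mem_singleton_iff, not_or] at h1
  rcases b3 d h2 with rfl | rfl <;> grind

end

theorem main [Finite V] (hp : R.Plane) (h3 : ThreeConnected H) (μ : H.edgeSet → ℕ) (Δ : ℕ)
    (hΔ : 1000000 ≤ Δ) (hf : ∀ f, (R.boundary μ f).ncard ≤ Δ) :
    ∃ c : SubV H μ → Fin (3 * Δ / 2), ∀ f, Set.InjOn c (R.boundary μ f) := by
  classical
  have := Fintype.ofFinite V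
  have : Finite R.Face := Quotient.finite _
  have := Fintype.ofFinite R.Face
  let u : H.Dart → SubV H μ := fun d => Sum.inl d.fst
  let ex : SubV H μ → Finset R.Face := Sum.elim (fun _ => ∅)
    fun p => (univ.filter fun d : H.Dart => d.edge = p.1.1).image R.face
  have hm : ∀ x f, ((x, f) ∈ (univ.image fun d => (u d, R.face d)) ∨ f ∈ ex x) ↔
      x ∈ R.boundary μ f := by
    intro x f
    constructor
    · rintro (h | h)
      · obtain ⟨d, -, e⟩ := mem_image.1 h
        cases e
        exact ⟨d, rfl, Or.inl rfl⟩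
      · rcases x with x | ⟨⟨e, he⟩, i⟩
        · exact absurd h (notMem_empty _)
        · obtain ⟨d, hd, rfl⟩ := mem_image.1 h
          obtain rfl : d.edge = e := (mem_filter.1 hd).2
          exact ⟨d, rfl, Or.inr ⟨i, rfl⟩⟩
    · rintro ⟨d, rfl, rfl | ⟨i, rfl⟩⟩
      · exact Or.inl (mem_image_of_mem _ (mem_univ d))
      · exact Or.inr (mem_image_of_mem _ (mem_filter.2 ⟨mem_univ d, rfl⟩))
  have hc : ∀ z, Cyc u R.face z ↔ Cyc (fun d : H.Dart => d.fst) R.face z := by
    intro z
    refine and_congr_left' ⟨fun h x => by simpa [u] using h (Sum.inl x), fun h x => ?_⟩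
    rcases x with x | x
    · simpa [u] using h x
    · simp [u]
  obtain ⟨c, hcol⟩ := hyper (I := univ.image fun d => (u d, R.face d)) (ex := ex) hΔ (by
      rintro (x | p)
      · exact Nat.zero_le _
      · exact card_image_le.trans (H.dart_edge_fiber_card _ p.1.2).le) (fun p hp => by
      obtain ⟨d, -, rfl⟩ := mem_image.1 hp
      rfl) (fun f => by
      refine le_trans (le_of_eq ?_) (hf f)
      rw [← Set.ncard_coe_finset]
      congr 1
      ext x
      simp only [coe_filter, mem_univ, true_and, Set.mem_ofPred_eq, hm])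
    (girth u R.face edg (fun d => edg (R.next d)) (fun s => (hc _).2 (R.cyc0 s))
      fun z hz => R.fill hp h3 z ((hc z).1 hz)) (fun f g hfg => by
      by_contra hlt
      obtain ⟨x, y, w, hx, hy, hw, n1, n2, n3⟩ := two_lt_card_iff.1 (not_le.1 hlt)
      simp only [mem_filter, mem_univ, true_and, mem_image, Prod.mk.injEq] at hx hy hw
      obtain ⟨⟨d₁, rfl, e1⟩, d₂, f2, e2⟩ := hx
      obtain ⟨⟨d₃, rfl, e3⟩, d₄, f4, e4⟩ := hy
      obtain ⟨⟨d₅, rfl, e5⟩, d₆, f6, e6⟩ := hw
      exact R.three hp h3 (Sum.inl_injective f2).symm (Sum.inl_injective f4).symm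
        (Sum.inl_injective f6).symm (e1.trans e3.symm) (e1.trans e5.symm) (e2.trans e4.symm)
        (e2.trans e6.symm) (fun h => n1 (congrArg Sum.inl h)) (fun h => n2 (congrArg Sum.inl h))
        (fun h => n3 (congrArg Sum.inl h)) (by rw [e1, e2]; exact hfg))
  exact ⟨c, fun f x hx y hy => hcol f x y ((hm _ _).2 hx) ((hm _ _).2 hy)⟩

end Pool.Agent.P.MP_e2f256_co
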