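import Pool.Agent.P.MP_e2f256_co.EC

namespace Pool.Agent.P.MP_e2f256_co

open Finset Function

theorem greedy {O κ : Type} [Fintype O] [DecidableEq O] [LinearOrder κ] (r : O → κ)
    (M : O → Finset O) (t : ℕ) (ht : 0 < t) (hM : ∀ x, (M x).card < t)
    (hlt : ∀ x, ∀ y ∈ M x, r y < r x) :
    ∃ ty : O → ℕ, (∀ x, ty x < t) ∧ ∀ x, ∀ y ∈ M x, ty x ≠ ty y := by
  have key : ∀ S : Finset O, ∃ ty : O → ℕ, (∀ x, ty x < t) ∧
      ∀ x ∈ S, ∀ y ∈ M x, ty x ≠ ty y := by
    intro S
    induction S using Finset.induction_on_max_value r with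
    | empty => exact ⟨fun _ => 0, fun _ => ht, fun x hx => absurd hx (notMem_empty x)⟩
    | insert a S ha hmax ih =>
      obtain ⟨ty, h1, h2⟩ := ih
      obtain ⟨γ, hγ1, hγ2⟩ := exists_mem_notMem_of_card_lt_card
        (s := (M a).image ty) (t := range t) (by
          rw [card_range]; exact card_image_le.trans_lt (hM a))
      refine ⟨update ty a γ, fun x => ?_, fun x hx y hy => ?_⟩
      · by_cases h : x = a
        · rw [h, update_self]; exact mem_range.1 hγ1
        · rw [update_of_ne h]; exact h1 x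
      · rcases mem_insert.1 hx with rfl | hx'
        · have : y ≠ x := fun h => by have := hlt x y hy; rw [h] at this; exact lt_irrefl _ this
          rw [update_self, update_of_ne this]
          exact fun h => hγ2 (mem_image.2 ⟨y, hy, h.symm⟩)
        · have h3 : x ≠ a := fun h => ha (h ▸ hx')
          have h4 : y ≠ a := fun h => by
            have := (hlt x y hy).trans_le (hmax x hx'); rw [h] at this; exact lt_irrefl _ this
          rw [update_of_ne h3, update_of_ne h4]
          exact h2 x hx' y hy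
  obtain ⟨ty, h1, h2⟩ := key univ
  exact ⟨ty, h1, fun x => h2 x (mem_univ x)⟩

section Side

variable {O G κ : Type} [Fintype O] [DecidableEq O] [DecidableEq G] [LinearOrder κ]

def pos (r : O → κ) (τ : O → G) (x : O) : ℕ := (univ.filter fun y => τ y = τ x ∧ r y < r x).card

def mates (r : O → κ) (τ : O → G) (m : ℕ) (h : O → ℕ) (x : O) : Finset O :=
  univ.filter fun y => τ y = τ x ∧ r y < r x ∧ pos r τ y / m + h y = pos r τ x / m + h x

variable {r : O → κ} {τ : O → G} {m : ℕ} {h : O → ℕ}

omit [DecidableEq O] in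
theorem pos_lt {x y : O} (h1 : τ y = τ x) (h2 : r y < r x) : pos r τ y < pos r τ x := by
  refine card_lt_card ⟨fun z hz => ?_, fun hh => ?_⟩
  · simp only [mem_filter, mem_univ, true_and] at hz ⊢
    exact ⟨hz.1.trans h1, hz.2.trans h2⟩
  · have := hh (mem_filter.2 ⟨mem_univ y, h1, h2⟩)
    simp at this

omit [DecidableEq O] in
theorem pos_inj (hr : Injective r) {x y : O} (h1 : τ y = τ x) (h2 : pos r τ y = pos r τ x) :
    y = x := by
  rcases lt_trichotomy (r y) (r x) with h | h | h
  · have := pos_lt h1 h; omega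
  · exact hr h
  · have := pos_lt h1.symm h; omega

omit [DecidableEq O] in
theorem window_le (hr : Injective r) (hm : 0 < m) (v : G × ℕ) :
    (univ.filter fun x => (τ x, pos r τ x / m) = v).card ≤ m := by
  refine (card_le_card_of_injOn (t := range m) (fun x => pos r τ x % m) ?_ ?_).trans
    (card_range m).le
  · intro x _
    exact mem_coe.2 (mem_range.2 (Nat.mod_lt _ hm))
  · intro x hx y hy e
    have hx' := (mem_filter.1 (mem_coe.1 hx)).2
    have hy' := (mem_filter.1 (mem_coe.1 hy)).2
    have e2 := hx'.trans hy'.symm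
    simp only [Prod.mk.injEq] at e2
    refine pos_inj hr e2.1 ?_
    have e3 : pos r τ x % m = pos r τ y % m := e
    rw [← Nat.div_add_mod (pos r τ x) m, ← Nat.div_add_mod (pos r τ y) m, e2.2, e3]

omit [DecidableEq O] in
theorem mates_le (hh : ∀ x, h x < m)
    (hK : ∀ x y, τ x = τ y → pos r τ x / m = pos r τ y / m → h x = h y → x = y) (x : O) :
    (mates r τ m h x).card + h x + 1 ≤ m := by
  have : (mates r τ m h x).card ≤ (Ioo (h x) m).card := by
    refine card_le_card_of_injOn h ?_ ?_
    · intro y hy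
      obtain ⟨-, h1, h2, h3⟩ := mem_filter.1 (mem_coe.1 hy)
      have h4 : pos r τ y / m ≤ pos r τ x / m := Nat.div_le_div_right (pos_lt h1 h2).le
      refine mem_coe.2 (mem_Ioo.2 ⟨?_, hh y⟩)
      by_contra h5
      have := hK y x h1 (by omega) (by omega)
      rw [this] at h2
      exact lt_irrefl _ h2
    · intro y hy z hz e
      obtain ⟨-, h1, h2, h3⟩ := mem_filter.1 (mem_coe.1 hy)
      obtain ⟨-, h4, h5, h6⟩ := mem_filter.1 (mem_coe.1 hz)
      exact hK y z (h1.trans h4.symm) (by omega) e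
  rw [Nat.card_Ioo] at this
  have := hh x
  omega

theorem count_le (hr : Injective r) (hm : 0 < m) (hh : ∀ x, h x < m) {ty : O → ℕ}
    (hty : ∀ x, ∀ y ∈ mates r τ m h x, ty x ≠ ty y) (g : G) (J : Finset O)
    (hJ : ∀ x ∈ J, τ x = g)
    (hc : ∀ x ∈ J, ∀ z ∈ J, ∀ y, r x ≤ r y → r y ≤ r z → τ y = g → y ∈ J) (j : ℕ) :
    (J.filter fun x => ty x = j).card ≤ J.card / m + m + 1 := by
  rcases J.eq_empty_or_nonempty with rfl | hne
  · simp
  obtain ⟨x₀, hx₀, hmin⟩ := J.exists_min_image r hne
  have h1 : (J.filter fun x => ty x = j).card ≤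
      (Icc (pos r τ x₀ / m) (pos r τ x₀ / m + J.card / m + m)).card := by
    refine card_le_card_of_injOn (fun x => pos r τ x / m + h x) ?_ ?_
    · intro x hx
      obtain ⟨hx, -⟩ := mem_filter.1 (mem_coe.1 hx)
      have e : τ x₀ = τ x := (hJ _ hx₀).trans (hJ _ hx).symm
      have h2 : pos r τ x₀ ≤ pos r τ x := by
        rcases (hmin x hx).eq_or_lt with h | h
        · rw [hr h]
        · exact (pos_lt e h).le
      have h3 : pos r τ x ≤ pos r τ x₀ + J.card := by
        refine le_trans (card_le_card ?_) (card_union_le _ _)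
        intro y hy
        obtain ⟨-, y1, y2⟩ := mem_filter.1 hy
        rcases lt_or_ge (r y) (r x₀) with h | h
        · exact mem_union_left _ (mem_filter.2 ⟨mem_univ _, y1.trans e.symm, h⟩)
        · exact mem_union_right _ (hc x₀ hx₀ x hx y h y2.le (y1.trans (hJ _ hx)))
      have h4 := Nat.div_le_div_right (c := m) h2
      have h5 := Nat.div_le_div_right (c := m) h3
      have h6 : (pos r τ x₀ + J.card) / m ≤ pos r τ x₀ / m + J.card / m + 1 := by
        rw [Nat.add_div hm]; split_ifs <;> omega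
      have := hh x
      refine mem_coe.2 (mem_Icc.2 ⟨?_, ?_⟩)
      · show _ ≤ pos r τ x / m + h x
        omega
      · show pos r τ x / m + h x ≤ _
        omega
    · intro x hx y hy e
      obtain ⟨hx, tx⟩ := mem_filter.1 (mem_coe.1 hx)
      obtain ⟨hy, ty'⟩ := mem_filter.1 (mem_coe.1 hy)
      have e1 : τ x = τ y := (hJ _ hx).trans (hJ _ hy).symm
      rcases lt_trichotomy (r x) (r y) with h | h | h
      · exact absurd (ty'.trans tx.symm) (hty y x (mem_filter.2 ⟨mem_univ _, e1, h, e⟩))
      · exact hr h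
      · exact absurd (tx.trans ty'.symm) (hty x y (mem_filter.2 ⟨mem_univ _, e1.symm, h, e.symm⟩))
  rw [Nat.card_Icc] at h1
  generalize J.card / m = u at h1 ⊢
  generalize pos r τ x₀ / m = w at h1
  omega

end Side

theorem scheme {O G κ : Type} [Fintype O] [DecidableEq O] [DecidableEq G] [LinearOrder κ]
    (r : O → κ) (τ₁ τ₂ : O → G) (N : O → Finset O) (m c : ℕ) (hr : Injective r) (hm : 0 < m)
    (hN : ∀ x, (N x).card ≤ c) (hlt : ∀ x, ∀ y ∈ N x, r y < r x) :
    ∃ ty : O → ℕ, (∀ x, ty x < m + c) ∧ (∀ x, ∀ y ∈ N x, ty x ≠ ty y) ∧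
      ∀ τ, (τ = τ₁ ∨ τ = τ₂) → ∀ (g : G) (J : Finset O), (∀ x ∈ J, τ x = g) →
        (∀ x ∈ J, ∀ z ∈ J, ∀ y, r x ≤ r y → r y ≤ r z → τ y = g → y ∈ J) →
        ∀ j, (J.filter fun x => ty x = j).card ≤ J.card / m + m + 1 := by
  obtain ⟨l, hl⟩ := konig (fun x => (τ₁ x, pos r τ₁ x / m)) (fun x => (τ₂ x, pos r τ₂ x / m)) m hm
    (window_le hr hm) (window_le hr hm)
  have a1 : ∀ x, m - 1 - (l x : ℕ) < m := fun x => by omega
  have a2 : ∀ x, (l x : ℕ) < m := fun x => (l x).2
  obtain ⟨ty, h1, h2⟩ := greedy r (fun x => N x ∪ (mates r τ₁ m (fun x => m - 1 - (l x : ℕ)) x ∪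
    mates r τ₂ m (fun x => (l x : ℕ)) x)) (m + c) (by omega) (fun x => by
      have b1 := mates_le (r := r) (τ := τ₁) a1 (fun x y e1 e2 e3 => hl x y
        (Or.inl (by simp [e1, e2])) (Fin.ext (by have := a2 x; have := a2 y; omega))) x
      have b2 := mates_le (r := r) (τ := τ₂) a2 (fun x y e1 e2 e3 => hl x y
        (Or.inr (by simp [e1, e2])) (Fin.ext e3)) x
      have b3 := card_union_le (N x) (mates r τ₁ m (fun x => m - 1 - (l x : ℕ)) x ∪
        mates r τ₂ m (fun x => (l x : ℕ)) x)
      have b4 := card_union_le (mates r τ₁ m (fun x => m - 1 - (l x : ℕ)) x)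
        (mates r τ₂ m (fun x => (l x : ℕ)) x)
      have := hN x
      have := a2 x
      omega) (fun x y hy => by
      rcases mem_union.1 hy with hy | hy
      · exact hlt x y hy
      · rcases mem_union.1 hy with hy | hy <;> exact (mem_filter.1 hy).2.2.1)
  refine ⟨ty, h1, fun x y hy => h2 x y (mem_union_left _ hy), ?_⟩
  rintro τ (rfl | rfl)
  · exact count_le hr hm a1 fun x y hy => h2 x y (mem_union_right _ (mem_union_left _ hy))
  · exact count_le hr hm a2 fun x y hy => h2 x y (mem_union_right _ (mem_union_right _ hy))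

theorem degen {O : Type} [DecidableEq O] (Q : O → O → Prop) [DecidableRel Q] (c : ℕ)
    (S : Finset O) (h : ∀ A ⊆ S, ((A ×ˢ A).filter fun p => Q p.1 p.2).card ≤ c * A.card) :
    ∃ r : O → ℕ, Set.InjOn r S ∧ ∀ x ∈ S, (S.filter fun y => Q x y ∧ r y < r x).card ≤ c := by
  induction S using Finset.strongInduction with
  | H S ih =>
    rcases S.eq_empty_or_nonempty with rfl | hne
    · exact ⟨fun _ => 0, by simp, by simp⟩
    have h1 : ∑ x ∈ S, (S.filter fun y => Q x y).card ≤ ∑ _x ∈ S, c := by
      have := h S subset_rfl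
      rw [card_filter, sum_product] at this
      simp only [card_filter]
      simpa [mul_comm] using this
    obtain ⟨x, hx, hc⟩ := exists_le_of_sum_le hne h1
    obtain ⟨r, r1, r2⟩ := ih (S.erase x) (erase_ssubset hx)
      fun A hA => h A (hA.trans (erase_subset _ _))
    have hlt : ∀ y ∈ S.erase x, r y < (S.erase x).sup r + 1 := fun y hy =>
      Nat.lt_succ_of_le (le_sup hy)
    refine ⟨update r x ((S.erase x).sup r + 1), fun y hy z hz e => ?_, fun y hy => ?_⟩
    · by_cases h1 : y = x <;> by_cases h2 : z = x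
      · rw [h1, h2]
      · rw [h1, update_self, update_of_ne h2] at e
        have := hlt z (mem_erase.2 ⟨h2, hz⟩); omega
      · rw [h2, update_self, update_of_ne h1] at e
        have := hlt y (mem_erase.2 ⟨h1, hy⟩); omega
      · rw [update_of_ne h1, update_of_ne h2] at e
        exact r1 (mem_erase.2 ⟨h1, hy⟩) (mem_erase.2 ⟨h2, hz⟩) e
    · by_cases h1 : y = x
      · subst h1
        exact (card_le_card (monotone_filter_right _ fun z _ hz => hz.1)).trans hc
      · refine le_trans (card_le_card ?_) (r2 y (mem_erase.2 ⟨h1, hy⟩))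
        intro z hz
        obtain ⟨z1, z2, z3⟩ := mem_filter.1 hz
        rw [update_of_ne h1] at z3
        have h2 : z ≠ x := by
          rintro rfl
          rw [update_self] at z3
          have := hlt y (mem_erase.2 ⟨h1, hy⟩); omega
        rw [update_of_ne h2] at z3
        exact mem_filter.2 ⟨mem_erase.2 ⟨h2, z1⟩, z2, z3⟩

end Pool.Agent.P.MP_e2f256_co
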