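import Mathlib


namespace Pool.Agent.P.MP_e2f256_co.Tash

open Finset Function

section Orbits

variable {V : Type}

def Orb (f h : V → V) (v : V) : Set V :=
  {w | ∀ K : Set V, (∀ x ∈ K, f x ∈ K) → (∀ x ∈ K, h x ∈ K) → v ∈ K → w ∈ K}

variable {f h : V → V}

theorem orb_self (v : V) : v ∈ Orb f h v := fun _ _ _ hv => hv

theorem orb_f (v : V) : ∀ x ∈ Orb f h v, f x ∈ Orb f h v :=
  fun _ hx K h1 h2 hv => h1 _ (hx K h1 h2 hv)

theorem orb_h (v : V) : ∀ x ∈ Orb f h v, h x ∈ Orb f h v :=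
  fun _ hx K h1 h2 hv => h2 _ (hx K h1 h2 hv)

theorem orb_trans {u v w : V} (h1 : v ∈ Orb f h u) (h2 : w ∈ Orb f h v) : w ∈ Orb f h u :=
  h2 _ (orb_f u) (orb_h u) h1

theorem orb_comm {u v : V} (h1 : v ∈ Orb f h u) : v ∈ Orb h f u :=
  fun K a b hu => h1 K b a hu

theorem compl_closed (hf : Involutive f) {K : Set V} (hK : ∀ x ∈ K, f x ∈ K) {x : V}
    (hx : x ∉ K) : f x ∉ K := fun h' => hx (by simpa [hf x] using hK _ h')

theorem orb_symm (hf : Involutive f) (hh : Involutive h) {u v : V} (h1 : v ∈ Orb f h u) :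
    u ∈ Orb f h v := by
  by_contra hc
  exact h1 (Orb f h v)ᶜ (fun _ hx => compl_closed hf (orb_f v) hx)
    (fun _ hx => compl_closed hh (orb_h v) hx) hc (orb_self v)

theorem dvd_aux {m i j : ℤ} (hi : m ∣ 2 * i ∨ m ∣ 2 * i - 1) (hj : m ∣ 2 * j ∨ m ∣ 2 * j - 1) :
    m ∣ i ∨ m ∣ j ∨ m ∣ i - j := by
  have half : ∀ k a : ℤ, 2 * k = m * (2 * a) → m ∣ k := fun k a e => ⟨a, by linarith⟩
  rcases hi with ⟨a, ha⟩ | ⟨a, ha⟩ <;> rcases hj with ⟨b, hb⟩ | ⟨b, hb⟩
  · rcases Int.even_or_odd' a with ⟨a, rfl | rfl⟩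
    · exact Or.inl (half i a ha)
    · rcases Int.even_or_odd' b with ⟨b, rfl | rfl⟩
      · exact Or.inr (Or.inl (half j b hb))
      · exact Or.inr (Or.inr (half _ (a - b) (by linarith)))
  · rcases Int.even_or_odd' a with ⟨a, rfl | rfl⟩
    · exact Or.inl (half i a ha)
    · rcases Int.even_or_odd' m with ⟨m, rfl | rfl⟩
      · exfalso
        have : 2 * j - 1 = 2 * (m * b) := by linarith
        omega
      · exfalso
        have : 2 * i = 2 * (2 * m * a + m + a) + 1 := by linarith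
        omega
  · rcases Int.even_or_odd' b with ⟨b, rfl | rfl⟩
    · exact Or.inr (Or.inl (half j b hb))
    · rcases Int.even_or_odd' m with ⟨m, rfl | rfl⟩
      · exfalso
        have : 2 * i - 1 = 2 * (m * a) := by linarith
        omega
      · exfalso
        have : 2 * j = 2 * (2 * m * b + m + b) + 1 := by linarith
        omega
  · rcases Int.even_or_odd' a with ⟨a, rfl | rfl⟩
    · exfalso
      have : 2 * i - 1 = 2 * (m * a) := by linarith
      omega
    · rcases Int.even_or_odd' b with ⟨b, rfl | rfl⟩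
      · exfalso
        have : 2 * j - 1 = 2 * (m * b) := by linarith
        omega
      · exact Or.inr (Or.inr (half _ (a - b) (by linarith)))

theorem three_aux (hf : Involutive f) (hh : Involutive h) {x y z : V} (hx : h x = x)
    (hy : f y = y ∨ h y = y) (hz : f z = z ∨ h z = z) (oy : y ∈ Orb f h x) (oz : z ∈ Orb f h x) :
    x = y ∨ x = z ∨ y = z := by
  let F : Equiv.Perm V := hf.toPerm f
  let H : Equiv.Perm V := hh.toPerm h
  have FF : F * F = 1 := Equiv.ext fun v => hf v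
  have HH : H * H = 1 := Equiv.ext fun v => hh v
  let r : Equiv.Perm V := F * H
  have hconj : H * r * H⁻¹ = r⁻¹ := by
    rw [eq_inv_iff_mul_eq_one, inv_eq_of_mul_eq_one_right HH]
    calc H * (F * H) * H * (F * H) = H * F * (H * H) * F * H := by simp only [mul_assoc]
      _ = H * (F * F) * H := by rw [HH]; simp only [mul_one, mul_assoc]
      _ = 1 := by rw [FF, mul_one, HH]
  have hH : ∀ n : ℤ, h (r ^ n • x) = r ^ (-n) • x := by
    intro n
    have e : H * r ^ n = r ^ (-n) * H := by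
      rw [zpow_neg, ← inv_zpow, ← hconj, conj_zpow]; simp only [inv_mul_cancel_right]
    calc h (r ^ n • x) = (H * r ^ n) • x := rfl
      _ = r ^ (-n) • (h x) := by rw [e]; rfl
      _ = _ := by rw [hx]
  have hF : ∀ n : ℤ, f (r ^ n • x) = r ^ (1 - n) • x := by
    intro n
    have e : f (r ^ n • x) = r • h (r ^ n • x) := by
      show f _ = f (h (h _))
      rw [hh]
    rw [e, hH, sub_eq_add_neg, zpow_add, zpow_one, mul_smul r]
  have horb : ∀ w ∈ Orb f h x, ∃ n : ℤ, w = r ^ n • x := by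
    intro w hw
    refine hw {w | ∃ n : ℤ, w = r ^ n • x} ?_ ?_ ⟨0, by simp⟩
    · rintro _ ⟨n, rfl⟩; exact ⟨_, hF n⟩
    · rintro _ ⟨n, rfl⟩; exact ⟨_, hH n⟩
  have key : ∀ i j : ℤ, r ^ i • x = r ^ j • x ↔ (MulAction.period r x : ℤ) ∣ i - j := by
    intro i j
    rw [← MulAction.zpow_smul_eq_iff_period_dvd, sub_eq_neg_add, zpow_add, mul_smul, zpow_neg,
      inv_smul_eq_iff]
  have fix : ∀ n : ℤ, (f (r ^ n • x) = r ^ n • x ∨ h (r ^ n • x) = r ^ n • x) →
      (MulAction.period r x : ℤ) ∣ 2 * n ∨ (MulAction.period r x : ℤ) ∣ 2 * n - 1 := by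
    rintro n (e | e)
    · rw [hF, eq_comm, key] at e
      right; convert e using 1; ring
    · rw [hH, eq_comm, key] at e
      left; convert e using 1; ring
  obtain ⟨i, rfl⟩ := horb y oy
  obtain ⟨j, rfl⟩ := horb z oz
  rcases dvd_aux (fix i hy) (fix j hz) with e | e | e
  · exact Or.inl (MulAction.zpow_smul_eq_iff_period_dvd.2 e).symm
  · exact Or.inr (Or.inl (MulAction.zpow_smul_eq_iff_period_dvd.2 e).symm)
  · exact Or.inr (Or.inr ((key i j).2 e))

theorem three_ends (hf : Involutive f) (hh : Involutive h) {x y z : V} (hx : f x = x ∨ h x = x)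
    (hy : f y = y ∨ h y = y) (hz : f z = z ∨ h z = z) (oy : y ∈ Orb f h x) (oz : z ∈ Orb f h x) :
    x = y ∨ x = z ∨ y = z := by
  rcases hx with hx | hx
  · exact three_aux hh hf hx hy.symm hz.symm (orb_comm oy) (orb_comm oz)
  · exact three_aux hf hh hx hy hz oy oz

theorem even_card (B : Finset V) (φ : V → V) (h1 : ∀ u ∈ B, φ u ∈ B) (h2 : ∀ u ∈ B, φ u ≠ u)
    (h3 : ∀ u ∈ B, φ (φ u) = u) : Even B.card := by
  have h : ∑ _u ∈ B, (1 : ZMod 2) = 0 :=
    sum_involution (fun u _ => φ u) (fun _ _ => by decide) (fun u hu _ => h2 u hu) h1 h3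
  rw [sum_const, nsmul_eq_mul, mul_one] at h
  exact (ZMod.natCast_eq_zero_iff_even).1 h

theorem odd_single (B : Finset V) (hB : Odd B.card) (R : V → V → Prop)
    (hR : ∀ u ∈ B, ∀ v ∈ B, ∀ w ∈ B, R u v → R v w → u = v ∨ u = w ∨ v = w) :
    ∃ u ∈ B, ∀ v ∈ B, R u v → v = u := by
  by_contra hc
  push Not at hc
  choose! φ h1 h2 h3 using hc
  refine Nat.not_even_iff_odd.2 hB (even_card B φ h1 h3 fun u hu => ?_)
  rcases hR u hu _ (h1 u hu) _ (h1 _ (h1 u hu)) (h2 u hu) (h2 _ (h1 u hu)) with e | e | e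
  · exact absurd e.symm (h3 u hu)
  · exact e.symm
  · exact absurd e.symm (h3 _ (h1 u hu))

end Orbits

section Trees

variable {V C : Type} [DecidableEq V] [DecidableEq C] [Fintype C]

open Classical in
noncomputable def sw (g : C → V → V) (a b : C) (K : Set V) : C → V → V :=
  fun c v => if v ∈ K then g (Equiv.swap a b c) v else g c v

omit [DecidableEq V] [Fintype C] in
theorem sw_in {g : C → V → V} {a b : C} {K : Set V} {v : V} (hv : v ∈ K) (c : C) :
    sw g a b K c v = g (Equiv.swap a b c) v := if_pos hv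

omit [DecidableEq V] [Fintype C] in
theorem sw_out {g : C → V → V} {a b : C} {K : Set V} {v : V} (hv : v ∉ K) (c : C) :
    sw g a b K c v = g c v := if_neg hv

omit [DecidableEq V] [Fintype C] in
theorem sw_other {g : C → V → V} {a b : C} {K : Set V} {c : C} (h1 : c ≠ a) (h2 : c ≠ b) (v : V) :
    sw g a b K c v = g c v := by
  unfold sw
  rw [Equiv.swap_apply_of_ne_of_ne h1 h2, ite_self]

structure Fam (G : Set (C → V → V)) (u₀ v₀ : V) (σ : ℕ) : Prop where
  inv : ∀ g ∈ G, ∀ a, Involutive (g a)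
  swap : ∀ g ∈ G, ∀ a b (K : Set V), (∀ v ∈ K, g a v ∈ K) → (∀ v ∈ K, g b v ∈ K) → sw g a b K ∈ G
  miss : ∀ g ∈ G, ∀ v, σ ≤ (univ.filter fun a => g a v = v).card
  no : ∀ g ∈ G, ∀ a, g a u₀ = u₀ → g a v₀ = v₀ → False
  ne : u₀ ≠ v₀
  card : Fintype.card C ≤ σ * (σ - 1)
  pos : 0 < σ

structure Tree (u₀ v₀ : V) (g : C → V → V) (y : ℕ → V) (θ : ℕ → C) (p : ℕ) : Prop where
  y0 : y 0 = u₀
  y1 : y 1 = v₀
  inj : ∀ i ≤ p, ∀ j ≤ p, y i = y j → i = j
  edge : ∀ k, 2 ≤ k → k ≤ p → ∃ i < k, g (θ k) (y k) = y i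
  col : ∀ k, 2 ≤ k → k ≤ p → ∃ i < k, g (θ k) (y i) = y i

def El (G : Set (C → V → V)) (u₀ v₀ : V) (p : ℕ) : Prop :=
  ∀ g ∈ G, ∀ y θ, Tree u₀ v₀ g y θ p → ∀ i ≤ p, ∀ j ≤ p, ∀ a, g a (y i) = y i → g a (y j) = y j →
    i = j

def Un (θ : ℕ → C) (p : ℕ) (a : C) : Prop := ∀ k, 2 ≤ k → k ≤ p → θ k ≠ a

variable {G : Set (C → V → V)} {u₀ v₀ : V} {σ : ℕ} {g : C → V → V} {y : ℕ → V} {θ : ℕ → C} {p : ℕ}

omit [DecidableEq V] [DecidableEq C] [Fintype C] in
theorem Tree.mono (T : Tree u₀ v₀ g y θ p) {n : ℕ} (hn : n ≤ p) : Tree u₀ v₀ g y θ n :=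
  ⟨T.y0, T.y1, fun i hi j hj => T.inj i (hi.trans hn) j (hj.trans hn),
    fun k h1 h2 => T.edge k h1 (h2.trans hn), fun k h1 h2 => T.col k h1 (h2.trans hn)⟩

omit [DecidableEq C] [Fintype C] in
theorem Un.mono {a : C} (h : Un θ p a) {n : ℕ} (hn : n ≤ p) : Un θ n a :=
  fun k h1 h2 => h k h1 (h2.trans hn)

omit [DecidableEq V] [Fintype C] in
theorem Tree.sw (T : Tree u₀ v₀ g y θ p) {a b : C} (ha : Un θ p a) (hb : Un θ p b) (K : Set V) :
    Tree u₀ v₀ (sw g a b K) y θ p :=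
  ⟨T.y0, T.y1, T.inj,
    fun k h1 h2 => by simpa only [sw_other (ha k h1 h2) (hb k h1 h2)] using T.edge k h1 h2,
    fun k h1 h2 => by simpa only [sw_other (ha k h1 h2) (hb k h1 h2)] using T.col k h1 h2⟩

theorem Fam.orb (F : Fam G u₀ v₀ σ) (hg : g ∈ G) (a b : C) (v : V) :
    sw g a b (Orb (g a) (g b) v) ∈ G := F.swap g hg a b _ (orb_f v) (orb_h v)

theorem free (F : Fam G u₀ v₀ σ) (hg : g ∈ G) (T : Tree u₀ v₀ g y θ p) (hE : El G u₀ v₀ (p - 1))
    (v : V) : ∃ δ, g δ v = v ∧ Un θ p δ := by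
  have h1 : p * σ ≤ Fintype.card C := by
    have hd : ((range p : Finset ℕ) : Set ℕ).PairwiseDisjoint
        (fun i => univ.filter fun a => g a (y i) = y i) := by
      intro i hi j hj hij
      have hi' := mem_range.1 (mem_coe.1 hi)
      have hj' := mem_range.1 (mem_coe.1 hj)
      refine disjoint_left.2 fun a h1 h2 => hij ?_
      exact hE g hg y θ (T.mono (Nat.sub_le _ _)) i (by omega) j (by omega) a
        (mem_filter.1 h1).2 (mem_filter.1 h2).2
    calc p * σ = ∑ _i ∈ range p, σ := by simp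
      _ ≤ ∑ i ∈ range p, (univ.filter fun a => g a (y i) = y i).card :=
        sum_le_sum fun i _ => F.miss g hg _
      _ = _ := (card_biUnion hd).symm
      _ ≤ _ := card_le_univ _
  have h2 : p ≤ σ - 1 := by
    have := h1.trans F.card
    rw [mul_comm σ] at this
    exact Nat.le_of_mul_le_mul_right this F.pos
  have h3 : ((Icc 2 p).image θ).card < (univ.filter fun a => g a v = v).card := by
    have := card_image_le (s := Icc 2 p) (f := θ)
    have := F.miss g hg v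
    have := F.pos
    rw [Nat.card_Icc] at *
    omega
  obtain ⟨δ, h4, h5⟩ := exists_mem_notMem_of_card_lt_card h3
  exact ⟨δ, (mem_filter.1 h4).2, fun k k1 k2 e => h5 (mem_image.2 ⟨k, mem_Icc.2 ⟨k1, k2⟩, e⟩)⟩

theorem linked (F : Fam G u₀ v₀ σ) (hg : g ∈ G) (T : Tree u₀ v₀ g y θ p) (hE : El G u₀ v₀ p)
    {i j : ℕ} (hi : i ≤ p) (hj : j ≤ p) {γ δ : C} (h1 : g γ (y i) = y i)
    (h2 : g δ (y j) = y j) (u1 : Un θ p γ) (u2 : Un θ p δ) : y i ∈ Orb (g γ) (g δ) (y j) := by
  by_contra hc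
  have := hE _ (F.orb hg γ δ (y j)) y θ (T.sw u1 u2 _) i hi j hj γ (by rw [sw_out hc, h1])
    (by rw [sw_in (orb_self _), Equiv.swap_apply_left, h2])
  subst this
  exact hc (orb_self _)

theorem avoid (F : Fam G u₀ v₀ σ) (hg : g ∈ G) (T : Tree u₀ v₀ g y θ p) {i j : ℕ} (hi : i < p)
    (hj : j < p) (hij : i ≠ j) {β δ : C} (h1 : g β (y j) = y j) (h2 : g δ (y i) = y i)
    (h3 : g β (y p) = y p) (hl : y j ∈ Orb (g β) (g δ) (y i)) :
    y i ∉ Orb (g β) (g δ) (y p) ∧ y j ∉ Orb (g β) (g δ) (y p) := by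
  have key : y i ∉ Orb (g β) (g δ) (y p) := by
    intro h
    rcases three_ends (F.inv g hg β) (F.inv g hg δ) (Or.inl h3) (Or.inr h2) (Or.inl h1) h
      (orb_trans h hl) with e | e | e
    · have := T.inj p le_rfl i hi.le e; omega
    · have := T.inj p le_rfl j hj.le e; omega
    · exact hij (T.inj i hi.le j hj.le e)
  exact ⟨key, fun h => key (orb_trans h (orb_symm (F.inv g hg β) (F.inv g hg δ) hl))⟩

theorem step_a (F : Fam G u₀ v₀ σ) (hp : 2 ≤ p) (hE : El G u₀ v₀ (p - 1)) (hg : g ∈ G)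
    (T : Tree u₀ v₀ g y θ p) {i : ℕ} (hi : i < p) (he : g (θ p) (y p) = y i) {β : C}
    (h1 : g β (y i) = y i) (h2 : g β (y p) = y p) (hu : Un θ p β) : False := by
  have hI := F.inv g hg
  have he' : g (θ p) (y i) = y p := by rw [← he, hI]
  have hne : ∀ k < p, y k ≠ y p := fun k hk e => by have := T.inj k hk.le p le_rfl e; omega
  let K : Set V := {y i, y p}
  have hG : sw g (θ p) β K ∈ G := by
    refine F.swap g hg _ _ K ?_ ?_
    · rintro v (rfl | rfl)
      · exact Or.inr he'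
      · exact Or.inl he
    · rintro v (rfl | rfl)
      · exact Or.inl h1
      · exact Or.inr h2
  have hout : ∀ k < p, g (θ p) (y k) ≠ y p → y k ∉ K := by
    rintro k hk h (e | e)
    · exact h (e ▸ he')
    · exact hne k hk e
  have hT : Tree u₀ v₀ (sw g (θ p) β K) y θ (p - 1) := by
    refine ⟨T.y0, T.y1, (T.mono (Nat.sub_le _ _)).inj, fun k k1 k2 => ?_, fun k k1 k2 => ?_⟩
    · obtain ⟨l, hl, e⟩ := T.edge k k1 (by omega)
      refine ⟨l, hl, ?_⟩
      by_cases hk : θ k = θ p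
      · rw [sw_out (hout k (by omega) (by rw [← hk, e]; exact hne l (by omega))), e]
      · rw [sw_other hk (hu k k1 (by omega)), e]
    · obtain ⟨l, hl, e⟩ := T.col k k1 (by omega)
      refine ⟨l, hl, ?_⟩
      by_cases hk : θ k = θ p
      · rw [sw_out (hout l (by omega) (by rw [← hk, e]; exact hne l (by omega))), e]
      · rw [sw_other hk (hu k k1 (by omega)), e]
  obtain ⟨m, hm, e⟩ := T.col p hp le_rfl
  have hmi := hE _ hG y θ hT m (by omega) i (by omega) (θ p)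
    (by rw [sw_out (hout m hm (by rw [e]; exact hne m hm)), e])
    (by rw [sw_in (K := K) (Set.mem_insert _ _), Equiv.swap_apply_left, h1])
  subst hmi
  exact hne m hm (e.symm.trans he')

theorem step_b (F : Fam G u₀ v₀ σ) (hp : 2 ≤ p) (hE : El G u₀ v₀ (p - 1)) (hg : g ∈ G)
    (T : Tree u₀ v₀ g y θ p) {j : ℕ} (hj : j < p) {β : C}
    (h1 : g β (y j) = y j) (h2 : g β (y p) = y p) (hu : Un θ p β) : False := by
  obtain ⟨i, hi, he⟩ := T.edge p hp le_rfl
  by_cases hij : i = j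
  · subst hij; exact step_a F hp hE hg T hi he h1 h2 hu
  obtain ⟨δ, h3, hδ⟩ := free F hg T hE (y i)
  have hl := linked F hg (T.mono (Nat.sub_le p 1)) hE (i := j) (j := i) (by omega) (by omega) h1 h3
    (hu.mono (Nat.sub_le _ _)) (hδ.mono (Nat.sub_le _ _))
  obtain ⟨a1, -⟩ := avoid F hg T hi hj hij h1 h3 h2 hl
  refine step_a F hp hE (F.orb hg β δ (y p)) (T.sw hu hδ _) hi (β := δ) ?_ ?_ ?_ hδ
  · rw [sw_other (hu p hp le_rfl) (hδ p hp le_rfl), he]
  · rw [sw_out a1, h3]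
  · rw [sw_in (orb_self _), Equiv.swap_apply_right, h2]

theorem step_c (F : Fam G u₀ v₀ σ) (hp : 2 ≤ p) (hE : ∀ n < p, El G u₀ v₀ n) (d : ℕ) :
    ∀ g ∈ G, ∀ θ, Tree u₀ v₀ g y θ p → ∀ j < p, ∀ β, g β (y j) = y j → g β (y p) = y p →
      Un θ (p - d) β → False := by
  classical
  induction d with
  | zero => exact fun g hg θ T j hj β h1 h2 hu => step_b F hp (hE _ (by omega)) hg T hj h1 h2 hu
  | succ d ih =>
    intro g hg θ T j hj β h1 h2 hu
    by_cases hh : Un θ (p - d) β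
    · exact ih g hg θ T j hj β h1 h2 hh
    have hI := F.inv g hg
    obtain ⟨h, hdef, h3, h4⟩ : ∃ h, h = p - d ∧ 2 ≤ h ∧ θ h = β := by
      by_contra hc
      refine hh fun k k1 k2 e => ?_
      by_cases hk : k = p - d
      · exact hc ⟨k, hk, k1, e⟩
      · exact hu k k1 (by omega) e
    have hhp : h ≤ p := by omega
    have hu' : Un θ (h - 1) β := by
      have : h - 1 = p - (d + 1) := by omega
      rw [this]; exact hu
    obtain ⟨a, ha, ea⟩ := T.edge h h3 hhp
    obtain ⟨l, hl, el⟩ := T.col h h3 hhp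
    rw [h4] at ea el
    have hlj : l = j := hE (p - 1) (by omega) g hg y θ (T.mono (Nat.sub_le _ _)) l (by omega) j
      (by omega) β el h1
    subst hlj
    have ea' : g β (y a) = y h := by rw [← ea, hI]
    have hal : a ≠ l := by
      rintro rfl
      have := T.inj a (by omega) h hhp (h1.symm.trans ea')
      omega
    obtain ⟨δ, h5, hδ⟩ := free F hg T (hE _ (by omega)) (y a)
    have hβδ : β ≠ δ := h4 ▸ hδ h h3 hhp
    have hlk := linked F hg (T.mono (by omega : h - 1 ≤ p)) (hE _ (by omega)) (i := l) (j := a)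
      (by omega) (by omega) h1 h5 hu' (hδ.mono (by omega))
    obtain ⟨a1, a2⟩ := avoid F hg T (by omega : a < p) hj hal h1 h5 h2 hlk
    set K := Orb (g β) (g δ) (y p) with hK
    have a3 : y h ∉ K := fun e => a1 (ea ▸ orb_f _ _ e)
    refine ih _ (F.orb hg β δ (y p)) (fun k => if y k ∈ K then Equiv.swap β δ (θ k) else θ k)
      ⟨T.y0, T.y1, T.inj, fun k k1 k2 => ?_, fun k k1 k2 => ?_⟩ a (by omega) δ ?_ ?_ ?_
    · obtain ⟨i, hi, e⟩ := T.edge k k1 k2
      refine ⟨i, hi, ?_⟩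
      by_cases hk : y k ∈ K
      · rw [if_pos hk, sw_in hk, Equiv.swap_apply_self, e]
      · rw [if_neg hk, sw_out hk, e]
    · by_cases hβ : θ k = β
      · have hk' : h ≤ k := by
          by_contra hc
          exact hu' k k1 (by omega) hβ
        by_cases hk : y k ∈ K
        · exact ⟨a, by omega, by rw [if_pos hk, hβ, Equiv.swap_apply_left, sw_out a1, h5]⟩
        · exact ⟨l, by omega, by rw [if_neg hk, hβ, sw_out a2, h1]⟩
      · obtain ⟨i, hi, e⟩ := T.col k k1 k2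
        refine ⟨i, hi, ?_⟩
        rw [Equiv.swap_apply_of_ne_of_ne hβ (hδ k k1 k2), ite_self, sw_other hβ (hδ k k1 k2), e]
    · rw [sw_out a1, h5]
    · rw [sw_in (orb_self _), Equiv.swap_apply_right, h2]
    · intro k k1 k2
      dsimp only
      by_cases hk : k = h
      · subst hk
        rw [if_neg a3, h4]; exact hβδ
      · have hβ := hu' k k1 (by omega)
        have hδ' := hδ k k1 (by omega)
        rw [Equiv.swap_apply_of_ne_of_ne hβ hδ', ite_self]; exact hδ'

theorem elem (F : Fam G u₀ v₀ σ) (p : ℕ) : El G u₀ v₀ p := by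
  induction p using Nat.strong_induction_on with
  | _ p ih =>
    intro g hg y θ T
    have key : ∀ j < p, ∀ a, g a (y j) = y j → g a (y p) = y p → False := by
      intro j hj a h1 h2
      by_cases hp : 2 ≤ p
      · exact step_c F hp ih p g hg θ T j hj a h1 h2 fun k k1 k2 => by omega
      · obtain rfl : p = 1 := by omega
        obtain rfl : j = 0 := by omega
        rw [T.y0] at h1
        rw [T.y1] at h2
        exact F.no g hg a h1 h2
    intro i hi j hj a h1 h2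
    rcases hi.lt_or_eq with hi | rfl <;> rcases hj.lt_or_eq with hj | hj
    · exact ih (p - 1) (by omega) g hg y θ (T.mono (Nat.sub_le _ _)) i (by omega) j (by omega) a
        h1 h2
    · subst hj; exact (key i hi a h1 h2).elim
    · exact (key j hj a h2 h1).elim
    · exact hj.symm

omit [DecidableEq C] [Fintype C] in
theorem mem_U {v : V} : v ∈ (range (p + 1)).image y ↔ ∃ i ≤ p, y i = v := by
  simp only [mem_image, mem_range, Nat.lt_succ_iff]

def Max (G : Set (C → V → V)) (u₀ v₀ : V) (p : ℕ) : Prop :=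
  ∀ g ∈ G, ∀ y θ, ¬ Tree u₀ v₀ g y θ (p + 1)

theorem closed (F : Fam G u₀ v₀ σ) (hp : 1 ≤ p) (hM : Max G u₀ v₀ p) (hg : g ∈ G)
    (T : Tree u₀ v₀ g y θ p) {a : C} {v w : V} (hv : v ∈ (range (p + 1)).image y)
    (ha : g a v = v) (hw : w ∈ (range (p + 1)).image y) : g a w ∈ (range (p + 1)).image y := by
  by_contra hc
  obtain ⟨i, hi, rfl⟩ := mem_U.1 hv
  obtain ⟨j, hj, rfl⟩ := mem_U.1 hw
  have hy : ∀ k ≤ p, update y (p + 1) (g a (y j)) k = y k :=
    fun k hk => update_of_ne (by omega) _ _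
  have hθ : ∀ k ≤ p, update θ (p + 1) a k = θ k := fun k hk => update_of_ne (by omega) _ _
  refine hM g hg (update y (p + 1) (g a (y j))) (update θ (p + 1) a)
    ⟨by rw [hy 0 (by omega), T.y0], by rw [hy 1 hp, T.y1], fun k hk l hl e => ?_,
      fun k k1 k2 => ?_, fun k k1 k2 => ?_⟩
  · rcases hk.lt_or_eq with hk | rfl <;> rcases hl.lt_or_eq with hl | rfl
    · rw [hy k (by omega), hy l (by omega)] at e
      exact T.inj k (by omega) l (by omega) e
    · rw [hy k (by omega), update_self] at e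
      exact (hc (mem_U.2 ⟨k, by omega, e⟩)).elim
    · rw [hy l (by omega), update_self] at e
      exact (hc (mem_U.2 ⟨l, by omega, e.symm⟩)).elim
    · rfl
  · rcases k2.lt_or_eq with k2 | rfl
    · obtain ⟨l, hl, e⟩ := T.edge k k1 (by omega)
      exact ⟨l, hl, by rw [hy k (by omega), hy l (by omega), hθ k (by omega), e]⟩
    · exact ⟨j, by omega, by rw [update_self, update_self, hy j hj, F.inv g hg]⟩
  · rcases k2.lt_or_eq with k2 | rfl
    · obtain ⟨l, hl, e⟩ := T.col k k1 (by omega)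
      exact ⟨l, hl, by rw [hy l (by omega), hθ k (by omega), e]⟩
    · exact ⟨i, by omega, by rw [update_self, hy i hi, ha]⟩

theorem leave_mem (F : Fam G u₀ v₀ σ) (hp : 1 ≤ p) (hM : Max G u₀ v₀ p) (hg : g ∈ G)
    (T : Tree u₀ v₀ g y θ p) {γ δ : C} {v u : V} (hv : v ∈ (range (p + 1)).image y)
    (h1 : g γ v = v) (hγ : Un θ p γ) (hδ : Un θ p δ) (hu : u ∈ (range (p + 1)).image y)
    (h2 : g δ u ∉ (range (p + 1)).image y) : u ∈ Orb (g γ) (g δ) v := by
  by_contra hc
  have hc' : v ∉ Orb (g γ) (g δ) u := fun h => hc (orb_symm (F.inv g hg γ) (F.inv g hg δ) h)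
  have := closed F hp hM (F.orb hg γ δ u) (T.sw hγ hδ _) (a := γ) hv (by rw [sw_out hc', h1]) hu
  rw [sw_in (orb_self _), Equiv.swap_apply_left] at this
  exact h2 this

theorem one_leaving (F : Fam G u₀ v₀ σ) (hp : 1 ≤ p) (hM : Max G u₀ v₀ p) (hg : g ∈ G)
    (T : Tree u₀ v₀ g y θ p) {δ : C} (hδ : ∀ v ∈ (range (p + 1)).image y, g δ v ≠ v)
    (hodd : Odd (((range (p + 1)).image y).filter
      fun u => g δ u ∉ (range (p + 1)).image y).card) :
    (((range (p + 1)).image y).filter fun u => g δ u ∉ (range (p + 1)).image y).card = 1 := by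
  set U := (range (p + 1)).image y with hU
  have hI := F.inv g hg
  have hun : Un θ p δ := by
    intro k k1 k2 e
    obtain ⟨i, hi, h⟩ := T.col k k1 k2
    exact hδ (y i) (mem_U.2 ⟨i, by omega, rfl⟩) (e ▸ h)
  have hv : y 0 ∈ U := mem_U.2 ⟨0, by omega, rfl⟩
  obtain ⟨γ, h1, hγ⟩ := free F hg T (elem F _) (y 0)
  have hγU : ∀ w ∈ U, g γ w ∈ U := fun w hw => closed F hp hM hg T hv h1 hw
  let f₂ : V → V := fun w => if w ∈ U ∨ g δ w ∈ U then w else g δ w
  have hf₂ : Involutive f₂ := by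
    intro w
    by_cases hw : w ∈ U ∨ g δ w ∈ U
    · simp only [f₂, if_pos hw]
    · have hw' : ¬ (g δ w ∈ U ∨ g δ (g δ w) ∈ U) := by rw [hI]; exact fun h => hw h.symm
      simp only [f₂, if_neg hw, if_neg hw', hI δ w]
  have hfix : ∀ u ∈ U, f₂ (g δ u) = g δ u := fun u hu => if_pos (Or.inr (by rw [hI]; exact hu))
  obtain ⟨u, hu, hone⟩ := odd_single _ hodd (fun u u' => g δ u' ∈ Orb (g γ) f₂ (g δ u)) (by
    intro a ha b hb c hc r1 r2
    have := three_ends (hI γ) hf₂ (Or.inr (hfix a (mem_filter.1 ha).1))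
      (Or.inr (hfix b (mem_filter.1 hb).1)) (Or.inr (hfix c (mem_filter.1 hc).1)) r1
      (orb_trans r1 r2)
    simpa only [(hI δ).injective.eq_iff] using this)
  obtain ⟨huU, hul⟩ := mem_filter.1 hu
  have hK' : ∀ w ∈ Orb (g γ) f₂ (g δ u), w ∉ U := by
    intro w hw
    refine hw (↑U)ᶜ (fun x hx => compl_closed (K := (U : Set V)) (hI γ) hγU hx) (fun x hx => ?_) hul
    by_cases h : x ∈ U ∨ g δ x ∈ U
    · simpa only [f₂, if_pos h] using hx
    · simp only [f₂, if_neg h]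
      exact fun h' => h (Or.inr h')
  obtain ⟨γ', h2, hγ'⟩ := free F hg T (elem F _) u
  have hKU : ∀ w ∈ Orb (g γ) (g γ') u, w ∈ U := fun w hw =>
    hw (U : Set V) hγU (fun x hx => closed F hp hM hg T huU h2 hx) huU
  have hδγ : δ ≠ γ := fun e => hδ _ hv (e ▸ h1)
  have hδγ' : δ ≠ γ' := fun e => hδ _ huU (e ▸ h2)
  set g' := sw g γ γ' (Orb (g γ) (g γ') u) with hg'
  have e1 : ∀ w, g' δ w = g δ w := sw_other hδγ hδγ'
  have e2 : g' γ u = u := by rw [hg', sw_in (orb_self _), Equiv.swap_apply_left, h2]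
  rw [card_eq_one]
  refine ⟨u, eq_singleton_iff_unique_mem.2 ⟨hu, fun w hw => ?_⟩⟩
  obtain ⟨hwU, hwl⟩ := mem_filter.1 hw
  have h3 : w ∈ Orb (g' γ) (g' δ) u :=
    leave_mem F hp hM (F.orb hg γ γ' u) (T.sw hγ hγ' _) huU e2 hγ hun hwU
      (by rw [sw_other hδγ hδγ']; exact hwl)
  have h4 : w ∈ insert u (Orb (g γ) f₂ (g δ u)) := by
    refine h3 _ ?_ ?_ (Or.inl rfl)
    · rintro x (rfl | hx)
      · exact Or.inl e2
      · rw [hg', sw_out (fun h => hK' x hx (hKU x h))]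
        exact Or.inr (orb_f _ _ hx)
    · rintro x (rfl | hx)
      · rw [e1]; exact Or.inr (orb_self _)
      · rw [e1]
        by_cases h : g δ x ∈ U
        · exact Or.inl (hone _ (mem_filter.2 ⟨h, by rw [hI]; exact hK' x hx⟩) (by rw [hI]; exact hx))
        · have : f₂ x = g δ x := if_neg (fun h' => h'.elim (hK' x hx) h)
          rw [← this]
          exact Or.inr (orb_h _ _ hx)
  rcases h4 with h4 | h4
  · exact h4
  · exact (hK' w h4 hwU).elim

omit [DecidableEq C] [Fintype C] in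
theorem split_card {f : V → V} (hf : Involutive f) (U : Finset V) :
    Even (U.filter fun u => f u ∈ U ∧ f u ≠ u).card ∧
      (U.filter fun u => f u ∈ U ∧ f u ≠ u).card + (U.filter fun u => f u = u ∨ f u ∉ U).card
        = U.card := by
  refine ⟨even_card _ f (fun u hu => ?_) (fun u hu => (mem_filter.1 hu).2.2) fun u _ => hf u, ?_⟩
  · obtain ⟨h1, h2, h3⟩ := mem_filter.1 hu
    exact mem_filter.2 ⟨h2, by rw [hf]; exact ⟨h1, h3.symm⟩⟩
  · rw [← card_filter_add_card_filter_not (s := U) (fun u => f u ∈ U ∧ f u ≠ u)]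
    congr 2
    exact filter_congr fun u _ => by tauto

theorem core [Fintype V] (F : Fam G u₀ v₀ σ) (hne : G.Nonempty) :
    ∃ g ∈ G, ∃ U : Finset V, u₀ ∈ U ∧ v₀ ∈ U ∧ Odd U.card ∧
      ∀ a, (U.filter fun u => g a u ∈ U ∧ g a u ≠ u).card + 1 = U.card := by
  obtain ⟨g₀, hg₀⟩ := hne
  obtain ⟨a₀, -⟩ : (univ.filter fun a => g₀ a u₀ = u₀).Nonempty :=
    card_pos.1 (F.pos.trans_le (F.miss g₀ hg₀ u₀))
  obtain ⟨n, hn1, hn2⟩ := Nat.exists_not_and_succ_of_not_zero_of_exists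
    (p := fun n => Max G u₀ v₀ n) (fun h => h g₀ hg₀ (fun i => if i = 0 then u₀ else v₀)
      (fun _ => a₀) ⟨by simp, by simp, fun i hi j hj e => by
        have := F.ne
        interval_cases i <;> interval_cases j <;> simp_all, fun k k1 k2 => by omega,
        fun k k1 k2 => by omega⟩)
    ⟨Fintype.card V, fun g _ y θ T => by
      have h1 : ((range (Fintype.card V + 1)).image y).card = Fintype.card V + 1 := by
        rw [card_image_of_injOn, card_range]
        intro i hi j hj e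
        have := mem_range.1 (mem_coe.1 hi)
        have := mem_range.1 (mem_coe.1 hj)
        exact T.inj i (by omega) j (by omega) e
      have := card_le_univ ((range (Fintype.card V + 1)).image y)
      omega⟩
  unfold Max at hn1
  push Not at hn1
  obtain ⟨g, hg, y, θ, T⟩ := hn1
  have hp : 1 ≤ n + 1 := by omega
  have hI := F.inv g hg
  set U := (range (n + 1 + 1)).image y with hU
  have hmiss : ∀ a, ∀ v ∈ U, g a v = v → (U.filter fun u => g a u = u ∨ g a u ∉ U).card = 1 := by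
    intro a v hv ha
    rw [card_eq_one]
    refine ⟨v, eq_singleton_iff_unique_mem.2 ⟨mem_filter.2 ⟨hv, Or.inl ha⟩, fun w hw => ?_⟩⟩
    obtain ⟨hw1, hw2⟩ := mem_filter.1 hw
    have hw3 := hw2.resolve_right (not_not.2 (closed F hp hn2 hg T hv ha hw1))
    obtain ⟨i, hi, rfl⟩ := mem_U.1 hv
    obtain ⟨j, hj, rfl⟩ := mem_U.1 hw1
    rw [elem F _ g hg y θ T i hi j hj a ha hw3]
  have hu₀ : u₀ ∈ U := mem_U.2 ⟨0, by omega, T.y0⟩
  have hodd : Odd U.card := by
    obtain ⟨a, ha⟩ : (univ.filter fun a => g a u₀ = u₀).Nonempty :=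
      card_pos.1 (F.pos.trans_le (F.miss g hg u₀))
    obtain ⟨h1, h2⟩ := split_card (hI a) U
    rw [← h2, hmiss a u₀ hu₀ (mem_filter.1 ha).2]
    exact h1.add_one
  refine ⟨g, hg, U, hu₀, mem_U.2 ⟨1, hp, T.y1⟩, hodd, fun a => ?_⟩
  obtain ⟨h1, h2⟩ := split_card (hI a) U
  rw [← h2]
  congr 1
  by_cases h : ∃ v ∈ U, g a v = v
  · obtain ⟨v, hv, ha⟩ := h
    exact (hmiss a v hv ha).symm
  · push Not at h
    have h3 : (U.filter fun u => g a u = u ∨ g a u ∉ U) = U.filter fun u => g a u ∉ U :=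
      filter_congr fun u hu => by have := h u hu; tauto
    rw [h3] at h2 ⊢
    refine (one_leaving F hp hn2 hg T h ?_).symm
    rw [← h2] at hodd
    exact (Nat.odd_add'.1 hodd).2 h1

end Trees

end Pool.Agent.P.MP_e2f256_co.Tash
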